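import Mathlib

set_option autoImplicit false

namespace Pool.Agent.Helper89.FI

/-- Coefficients of `(1-t^17)^r/(1-t)^5`. -/
def cc (r m : ℕ) : ℤ := ∑ i ∈ Finset.range (r + 1),
          (if 17 * i ≤ m then
            (-1 : ℤ) ^ i * (r.choose i : ℤ) * (((m - 17 * i + 5 - 1).choose (5 - 1) : ℕ) : ℤ)
          else 0)

theorem cc9_pos : ∀ m : ℕ, m ≤ 38 → 0 < cc 9 m := by
  decide +kernel

theorem cc6_pos : ∀ m : ℕ, m ≤ 38 → 0 < cc 6 m := by
  decide +kernel

theorem cc0_pos : ∀ m : ℕ, m ≤ 4 → 0 < cc 0 m := by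
  decide +kernel

theorem cc9_38 : cc 9 38 = 600 := by decide +kernel
theorem cc9_21 : cc 9 21 = 12020 := by decide +kernel
theorem cc6_38 : cc 6 38 = 37080 := by decide +kernel
theorem cc6_21 : cc 6 21 = 12230 := by decide +kernel
theorem cc0_4 : cc 0 4 = 70 := by decide +kernel

end Pool.Agent.Helper89.FI
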