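import Mathlib

set_option autoImplicit false

namespace Pool.Agent.Helper89.FI

open Polynomial

/-- `D(t) = ∏ (t - t_k)^22`. -/
noncomputable def DD (t : Fin 6 → ℂ) : Polynomial ℂ := ∏ k, (X - C (t k)) ^ 22

/-- The power series inverse of `D`. -/
noncomputable def UU (t : Fin 6 → ℂ) : PowerSeries ℂ := ((DD t : Polynomial ℂ) : PowerSeries ℂ)⁻¹

theorem DD_coeff_zero {t : Fin 6 → ℂ} (ht0 : ∀ k, t k ≠ 0) : (DD t).coeff 0 ≠ 0 := by
  unfold DD
  rw [Polynomial.coeff_zero_eq_eval_zero, eval_prod]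
  refine Finset.prod_ne_zero_iff.2 fun k _ => ?_
  simp [ht0 k]

theorem UU_mul {t : Fin 6 → ℂ} (ht0 : ∀ k, t k ≠ 0) :
    UU t * ((DD t : Polynomial ℂ) : PowerSeries ℂ) = 1 := by
  unfold UU
  apply PowerSeries.inv_mul_cancel
  rw [← PowerSeries.coeff_zero_eq_constantCoeff_apply, Polynomial.coeff_coe]
  exact DD_coeff_zero ht0

theorem UU_const {t : Fin 6 → ℂ} (ht0 : ∀ k, t k ≠ 0) :
    PowerSeries.coeff 0 (UU t) ≠ 0 := by
  intro h
  have := UU_mul ht0
  have h1 := congrArg (PowerSeries.coeff 0) this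
  rw [PowerSeries.coeff_mul] at h1
  simp [h] at h1

theorem DD_natDegree (t : Fin 6 → ℂ) : (DD t).natDegree = 132 := by
  unfold DD
  rw [natDegree_prod_of_monic _ _ (fun _ _ => (monic_X_sub_C _).pow _)]
  simp [(monic_X_sub_C _).natDegree_pow]

theorem DD_monic (t : Fin 6 → ℂ) : (DD t).Monic :=
  monic_prod_of_monic _ _ (fun _ _ => (monic_X_sub_C _).pow _)

theorem dvd_pow_of {R : Type*} [CommRing R] (L : Polynomial R) (τ : R)
    (h : (L.eval τ) ^ 17 = 0) : (X - C τ) ^ 22 ∣ L ^ 38 := by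
  obtain ⟨M, hM⟩ := X_sub_C_dvd_sub_C_eval (a := τ) (p := L)
  have hL : L = C (L.eval τ) + (X - C τ) * M := by rw [← hM]; ring
  have h1 : (C (L.eval τ)) ^ 17 ∈ Ideal.span {(X - C τ) ^ 22} := by
    rw [← C_pow, h, C_0]
    exact Ideal.zero_mem _
  have h2 : ((X - C τ) * M) ^ 22 ∈ Ideal.span {(X - C τ) ^ 22} := by
    rw [mul_pow]
    exact Ideal.mul_mem_right _ _ (Ideal.subset_span rfl)
  have h3 := Ideal.add_pow_mem_of_pow_mem_of_le _ h1 h2 (k := 38) (by norm_num)
  rw [← hL, Ideal.mem_span_singleton] at h3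
  exact h3

theorem residue_relation {R : Type*} [CommRing R] [Algebra ℂ R] (L : Polynomial R)
    (hL : L.natDegree ≤ 4) (t : Fin 6 → ℂ) (ht : Function.Injective t) (ht0 : ∀ k, t k ≠ 0)
    (hz : ∀ k, (L.eval (algebraMap ℂ R (t k))) ^ 17 = 0) :
    PowerSeries.coeff 21 (PowerSeries.map (algebraMap ℂ R) (UU t) *
      ((L ^ 38 : Polynomial R) : PowerSeries R)) = 0 := by
  rcases subsingleton_or_nontrivial R with hR | hR
  · exact Subsingleton.elim _ _
  have hdvd : ((DD t).map (algebraMap ℂ R)) ∣ L ^ 38 := by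
    unfold DD
    rw [Polynomial.map_prod]
    apply Finset.prod_dvd_of_coprime
    · intro i _ j _ hij
      simp only [Function.onFun, Polynomial.map_pow, Polynomial.map_sub, map_X, map_C]
      apply IsCoprime.pow
      apply isCoprime_X_sub_C_of_isUnit_sub
      rw [← map_sub]
      exact (IsUnit.mk0 _ (sub_ne_zero.2 fun h => hij (ht h))).map _
    · intro i _
      simp only [Polynomial.map_pow, Polynomial.map_sub, map_X, map_C]
      exact dvd_pow_of _ _ (hz i)
  obtain ⟨E, hE⟩ := hdvd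
  have hmon : ((DD t).map (algebraMap ℂ R)).Monic := (DD_monic t).map _
  have hdeg : E.coeff 21 = 0 := by
    by_cases hE0 : E = 0
    · simp [hE0]
    · apply coeff_eq_zero_of_natDegree_lt
      have h1 := hmon.natDegree_mul' hE0
      rw [← hE, (DD_monic t).natDegree_map, DD_natDegree] at h1
      have h2 : (L ^ 38).natDegree ≤ 38 * 4 :=
        natDegree_pow_le.trans (Nat.mul_le_mul_left _ hL)
      omega
  have key : PowerSeries.map (algebraMap ℂ R) (UU t) *
      ((L ^ 38 : Polynomial R) : PowerSeries R) = (E : PowerSeries R) := by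
    rw [hE, Polynomial.coe_mul, ← mul_assoc]
    have : (((DD t).map (algebraMap ℂ R) : Polynomial R) : PowerSeries R) =
        PowerSeries.map (algebraMap ℂ R) ((DD t : Polynomial ℂ) : PowerSeries ℂ) := by
      ext n
      simp
    rw [this, ← map_mul, UU_mul ht0, map_one, one_mul]
  rw [key, Polynomial.coeff_coe, hdeg]

end Pool.Agent.Helper89.FI
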