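import Mathlib
import Pool.Agent.Helper89.FI.Residue

set_option autoImplicit false

namespace Pool.Agent.Helper89.FI

open Polynomial

section

variable {S : Type*} [CommRing S] [Algebra ℂ S]

/-- The truncated binomial expansion. -/
noncomputable def TT (x : S) (M : Polynomial S) : Polynomial S :=
  ∑ b ∈ Finset.range 22, (X * M) ^ b * (C x) ^ (21 - b) * ((Nat.choose 38 b : ℕ) : Polynomial S)

/-- The kernel element. -/
noncomputable def GG (U : PowerSeries ℂ) (x : S) (M : Polynomial S) : S :=
  PowerSeries.coeff 21 (PowerSeries.map (algebraMap ℂ S) U * ((TT x M : Polynomial S) :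
    PowerSeries S))

omit [Algebra ℂ S] in
theorem pow_expand (x : S) (M : Polynomial S) :
    ∃ Q : Polynomial S, (X * M + C x) ^ 38 = (C x) ^ 17 * TT x M + X ^ 22 * Q := by
  refine ⟨∑ b ∈ Finset.range 17, X ^ b * M ^ (22 + b) * (C x) ^ (38 - (22 + b)) *
    ((Nat.choose 38 (22 + b) : ℕ) : Polynomial S), ?_⟩
  rw [add_pow]
  rw [show (38 + 1 : ℕ) = 22 + 17 from rfl, Finset.sum_range_add]
  congr 1
  · unfold TT
    rw [Finset.mul_sum]
    refine Finset.sum_congr rfl fun b hb => ?_
    have hb' : b ≤ 21 := Nat.lt_succ_iff.1 (Finset.mem_range.1 hb)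
    have : 38 - b = 17 + (21 - b) := by omega
    rw [this, pow_add]
    ring
  · rw [Finset.mul_sum]
    refine Finset.sum_congr rfl fun b _ => ?_
    rw [mul_pow, pow_add X 22 b]
    ring

theorem coeff_expand (U : PowerSeries ℂ) (x : S) (M : Polynomial S) :
    PowerSeries.coeff 21 (PowerSeries.map (algebraMap ℂ S) U *
      (((X * M + C x) ^ 38 : Polynomial S) : PowerSeries S)) = x ^ 17 * GG U x M := by
  obtain ⟨Q, hQ⟩ := pow_expand x M
  rw [hQ, Polynomial.coe_add, mul_add, map_add]
  have h1 : PowerSeries.coeff 21 (PowerSeries.map (algebraMap ℂ S) U *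
      ((X ^ 22 * Q : Polynomial S) : PowerSeries S)) = 0 := by
    rw [Polynomial.coe_mul, Polynomial.coe_pow, Polynomial.coe_X]
    rw [mul_left_comm, PowerSeries.coeff_X_pow_mul']
    rw [if_neg (by norm_num)]
  rw [h1, add_zero]
  unfold GG
  rw [Polynomial.coe_mul, mul_left_comm, ← C_pow, Polynomial.coe_C, PowerSeries.coeff_C_mul]

/-- image of the kernel element under a homomorphism killing `x`. -/
theorem map_GG {T : Type*} [CommRing T] [Algebra ℂ T] (φ : S →ₐ[ℂ] T) (U : PowerSeries ℂ) (x : S)
    (M : Polynomial S) (hx : φ x = 0) :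
    φ (GG U x M) = algebraMap ℂ T (PowerSeries.coeff 0 U) * (φ (M.coeff 0)) ^ 21 *
      ((Nat.choose 38 21 : ℕ) : T) := by
  have h1 : φ (GG U x M) = GG U (φ x) (M.map (φ : S →+* T)) := by
    unfold GG
    rw [PowerSeries.coeff_mul, PowerSeries.coeff_mul, map_sum]
    refine Finset.sum_congr rfl fun p _ => ?_
    rw [map_mul, PowerSeries.coeff_map, PowerSeries.coeff_map, AlgHom.commutes]
    congr 1
    rw [Polynomial.coeff_coe, Polynomial.coeff_coe]
    have : TT (φ x) (M.map (φ : S →+* T)) = (TT x M).map (φ : S →+* T) := by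
      unfold TT
      rw [Polynomial.map_sum]
      refine Finset.sum_congr rfl fun b _ => ?_
      simp
    rw [this, Polynomial.coeff_map]
    rfl
  rw [h1, hx]
  have h2 : TT (0 : T) (M.map (φ : S →+* T)) =
      X ^ 21 * ((M.map (φ : S →+* T)) ^ 21 * ((Nat.choose 38 21 : ℕ) : Polynomial T)) := by
    unfold TT
    rw [Finset.sum_range_succ, Finset.sum_eq_zero]
    · simp [mul_pow, mul_assoc]
    · intro b hb
      have hb' : 21 - b ≠ 0 := by
        have := Finset.mem_range.1 hb
        omega
      rw [C_0, zero_pow hb']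
      simp
  unfold GG
  rw [h2, Polynomial.coe_mul, Polynomial.coe_pow, Polynomial.coe_X, mul_left_comm,
    PowerSeries.coeff_X_pow_mul', if_pos (le_refl 21), Nat.sub_self, PowerSeries.coeff_mul]
  simp only [Finset.Nat.antidiagonal_zero, Finset.sum_singleton, PowerSeries.coeff_map]
  rw [Polynomial.coeff_coe, Polynomial.mul_coeff_zero, Polynomial.coeff_zero_eq_eval_zero,
    Polynomial.eval_pow, ← Polynomial.coeff_zero_eq_eval_zero, Polynomial.coeff_map,
    Polynomial.coeff_natCast_ite, if_pos rfl, mul_assoc]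
  rfl

end

end Pool.Agent.Helper89.FI
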