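import Mathlib
import Pool.Agent.Helper89.FI.Kernel

set_option autoImplicit false

namespace Pool.Agent.Helper89.FI

section

variable {n : ℕ}

/-- All coefficients of `p` are homogeneous of degree `d`. -/
def HP (d : ℕ) (p : Polynomial (MvPolynomial (Fin n) ℂ)) : Prop :=
  ∀ k, p.coeff k ∈ MvPolynomial.homogeneousSubmodule (Fin n) ℂ d

theorem HP.mul {d e : ℕ} {p q : Polynomial (MvPolynomial (Fin n) ℂ)} (hp : HP d p) (hq : HP e q) :
    HP (d + e) (p * q) := by
  intro k
  rw [Polynomial.coeff_mul]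
  exact Submodule.sum_mem _ fun x _ => MvPolynomial.IsHomogeneous.mul (hp _) (hq _)

theorem HP.one : HP 0 (1 : Polynomial (MvPolynomial (Fin n) ℂ)) := by
  intro k
  rw [Polynomial.coeff_one]
  split_ifs
  · exact MvPolynomial.isHomogeneous_one _ _
  · exact Submodule.zero_mem _

theorem HP.X : HP 0 (Polynomial.X : Polynomial (MvPolynomial (Fin n) ℂ)) := by
  intro k
  rw [Polynomial.coeff_X]
  split_ifs
  · exact MvPolynomial.isHomogeneous_one _ _
  · exact Submodule.zero_mem _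

theorem HP.C {d : ℕ} {x : MvPolynomial (Fin n) ℂ}
    (hx : x ∈ MvPolynomial.homogeneousSubmodule (Fin n) ℂ d) : HP d (Polynomial.C x) := by
  intro k
  rw [Polynomial.coeff_C]
  split_ifs
  · exact hx
  · exact Submodule.zero_mem _

theorem HP.pow {d : ℕ} {p : Polynomial (MvPolynomial (Fin n) ℂ)} (hp : HP d p) (m : ℕ) :
    HP (m * d) (p ^ m) := by
  induction m with
  | zero => simpa using HP.one
  | succ m ih =>
    rw [pow_succ, Nat.succ_mul]
    exact ih.mul hp

theorem HP.sum {ι : Type*} {d : ℕ} (s : Finset ι) (p : ι → Polynomial (MvPolynomial (Fin n) ℂ))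
    (h : ∀ i ∈ s, HP d (p i)) : HP d (∑ i ∈ s, p i) := by
  intro k
  rw [Polynomial.finsetSum_coeff]
  exact Submodule.sum_mem _ fun i hi => h i hi k

theorem HP.natCast (m : ℕ) : HP 0 ((m : ℕ) : Polynomial (MvPolynomial (Fin n) ℂ)) := by
  have h := MvPolynomial.isHomogeneous_C (Fin n) (m : ℂ)
  have h2 := HP.C (n := n) (d := 0) (x := MvPolynomial.C (m : ℂ)) h
  have h3 : (Polynomial.C (MvPolynomial.C (m : ℂ)) : Polynomial (MvPolynomial (Fin n) ℂ)) =
      ((m : ℕ) : Polynomial (MvPolynomial (Fin n) ℂ)) := by simp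
  rwa [h3] at h2

theorem HP.TT {x : MvPolynomial (Fin n) ℂ} {M : Polynomial (MvPolynomial (Fin n) ℂ)}
    (hx : x ∈ MvPolynomial.homogeneousSubmodule (Fin n) ℂ 1) (hM : HP 1 M) :
    HP 21 (TT x M) := by
  unfold FI.TT
  refine HP.sum _ _ fun b hb => ?_
  have hb' : b ≤ 21 := Nat.lt_succ_iff.1 (Finset.mem_range.1 hb)
  have h1 : HP (b * (0 + 1)) ((Polynomial.X * M) ^ b) := (HP.X.mul hM).pow b
  have h2 : HP ((21 - b) * 1) ((Polynomial.C x) ^ (21 - b)) := (HP.C hx).pow _
  have h3 := (h1.mul h2).mul (HP.natCast (Nat.choose 38 b))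
  have : b * (0 + 1) + (21 - b) * 1 + 0 = 21 := by omega
  rwa [this] at h3

theorem GG_mem (U : PowerSeries ℂ) {x : MvPolynomial (Fin n) ℂ}
    {M : Polynomial (MvPolynomial (Fin n) ℂ)}
    (hx : x ∈ MvPolynomial.homogeneousSubmodule (Fin n) ℂ 1) (hM : HP 1 M) :
    GG U x M ∈ MvPolynomial.homogeneousSubmodule (Fin n) ℂ 21 := by
  unfold GG
  rw [PowerSeries.coeff_mul]
  refine Submodule.sum_mem _ fun p _ => ?_
  rw [PowerSeries.coeff_map, Polynomial.coeff_coe, ← Algebra.smul_def]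
  exact Submodule.smul_mem _ _ (HP.TT hx hM _)

end

end Pool.Agent.Helper89.FI
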