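import Mathlib
import Pool.Agent.Helper89.FI.Homog

set_option autoImplicit false

namespace Pool.Agent.Helper89.FI

open Polynomial

section

variable (b c : Fin 5 → ℂ)

/-- parameters of the first five points -/
noncomputable def tau (j : Fin 5) : ℂ := b j / (b j - c j)

/-- parameters of the first six points -/
noncomputable def tt : Fin 6 → ℂ := Fin.snoc (tau b c) 1

/-- Lagrange-type product. -/
noncomputable def PP (j : Fin 5) : Polynomial ℂ :=
  ∏ k ∈ Finset.univ.erase j, (X - C (tau b c k))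

/-- The parametrised rational normal curve. -/
noncomputable def LL {S : Type*} [CommRing S] [Algebra ℂ S] (y : Fin 5 → S) : Polynomial S :=
  ∑ j, C (algebraMap ℂ S (b j * (1 - tau b c j)) * y j) * (PP b c j).map (algebraMap ℂ S)

variable {b c}

structure Good (b c : Fin 5 → ℂ) : Prop where
  hb : ∀ j, b j ≠ 0
  hc : ∀ j, c j ≠ 0
  hbc : ∀ j, b j - c j ≠ 0
  hx : ∀ i j, i ≠ j → b i * c j - b j * c i ≠ 0

theorem Good.tau_ne_zero (h : Good b c) (j : Fin 5) : tau b c j ≠ 0 :=
  div_ne_zero (h.hb j) (h.hbc j)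

theorem Good.one_sub_tau (h : Good b c) (j : Fin 5) : 1 - tau b c j = - c j / (b j - c j) := by
  unfold tau
  have := h.hbc j
  field_simp
  ring

theorem Good.one_sub_tau_ne (h : Good b c) (j : Fin 5) : 1 - tau b c j ≠ 0 := by
  rw [h.one_sub_tau]
  exact div_ne_zero (neg_ne_zero.2 (h.hc j)) (h.hbc j)

theorem Good.tau_inj (h : Good b c) : Function.Injective (tau b c) := by
  intro i j hij
  by_contra hne
  have h1 := h.hbc i
  have h2 := h.hbc j
  unfold tau at hij
  rw [div_eq_div_iff h1 h2] at hij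
  apply h.hx i j hne
  linear_combination -hij

theorem Good.tt_inj (h : Good b c) : Function.Injective (tt b c) := by
  intro i j
  refine Fin.lastCases ?_ (fun i => ?_) i
  · refine Fin.lastCases ?_ (fun j => ?_) j
    · intro _; rfl
    · intro hij
      simp only [tt, Fin.snoc_last, Fin.snoc_castSucc] at hij
      exact absurd (sub_eq_zero.2 hij) (h.one_sub_tau_ne j)
  · refine Fin.lastCases ?_ (fun j => ?_) j
    · intro hij
      simp only [tt, Fin.snoc_last, Fin.snoc_castSucc] at hij
      exact absurd (sub_eq_zero.2 hij.symm) (h.one_sub_tau_ne i)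
    · intro hij
      simp only [tt, Fin.snoc_castSucc] at hij
      rw [h.tau_inj hij]

theorem Good.tt_ne_zero (h : Good b c) (k : Fin 6) : tt b c k ≠ 0 := by
  refine Fin.lastCases ?_ (fun k => ?_) k
  · rw [tt, Fin.snoc_last]
    exact one_ne_zero
  · simp only [tt, Fin.snoc_castSucc]
    exact h.tau_ne_zero k

theorem PP_natDegree (j : Fin 5) : (PP b c j).natDegree = 4 := by
  unfold PP
  rw [natDegree_prod_of_monic _ _ (fun _ _ => monic_X_sub_C _)]
  simp

theorem PP_eval_ne {i j : Fin 5} (hij : i ≠ j) : (PP b c j).eval (tau b c i) = 0 := by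
  unfold PP
  rw [eval_prod]
  apply Finset.prod_eq_zero (Finset.mem_erase.2 ⟨hij, Finset.mem_univ i⟩)
  simp

theorem Good.PP_eval_self (h : Good b c) (j : Fin 5) : (PP b c j).eval (tau b c j) ≠ 0 := by
  unfold PP
  rw [eval_prod]
  refine Finset.prod_ne_zero_iff.2 fun k hk => ?_
  simp only [eval_sub, eval_X, eval_C]
  intro h0
  exact (Finset.mem_erase.1 hk).1 (h.tau_inj (sub_eq_zero.1 h0)).symm

theorem PP_mul (j : Fin 5) (s : ℂ) :
    (s - tau b c j) * (PP b c j).eval s = ∏ k, (s - tau b c k) := by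
  unfold PP
  rw [eval_prod, ← Finset.mul_prod_erase _ _ (Finset.mem_univ j)]
  simp

variable {S : Type*} [CommRing S] [Algebra ℂ S]

theorem LL_natDegree (y : Fin 5 → S) : (LL b c y).natDegree ≤ 4 := by
  unfold LL
  refine natDegree_sum_le_of_forall_le _ _ fun j _ => ?_
  refine natDegree_C_mul_le _ _ |>.trans ?_
  exact natDegree_map_le.trans (PP_natDegree j).le

theorem LL_eval (y : Fin 5 → S) (s : ℂ) :
    (LL b c y).eval (algebraMap ℂ S s) =
      ∑ j, algebraMap ℂ S (b j * (1 - tau b c j) * (PP b c j).eval s) * y j := by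
  unfold LL
  rw [eval_finsetSum]
  refine Finset.sum_congr rfl fun j _ => ?_
  rw [eval_mul, eval_C, eval_map_algebraMap, aeval_algebraMap_apply, map_mul _ (_ * _)]
  simp only [coe_aeval_eq_eval]
  ring

theorem LL_eval_tau (y : Fin 5 → S) (i : Fin 5) :
    (LL b c y).eval (algebraMap ℂ S (tau b c i)) =
      algebraMap ℂ S (b i * (1 - tau b c i) * (PP b c i).eval (tau b c i)) * y i := by
  rw [LL_eval, Finset.sum_eq_single i]
  · intro j _ hj
    rw [PP_eval_ne (Ne.symm hj)]
    simp
  · simp

theorem LL_eval_one (y : Fin 5 → S) :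
    (LL b c y).eval 1 =
      algebraMap ℂ S (∏ k, (1 - tau b c k)) * ∑ j, algebraMap ℂ S (b j) * y j := by
  have := LL_eval (b := b) (c := c) y 1
  rw [map_one] at this
  rw [this, Finset.mul_sum]
  refine Finset.sum_congr rfl fun j _ => ?_
  rw [← PP_mul j 1, mul_assoc (b j), map_mul]
  ring

theorem Good.LL_eval_zero (h : Good b c) (y : Fin 5 → S) :
    (LL b c y).eval 0 =
      algebraMap ℂ S (∏ k, (0 - tau b c k)) * ∑ j, algebraMap ℂ S (c j) * y j := by
  have := LL_eval (b := b) (c := c) y 0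
  rw [map_zero] at this
  rw [this, Finset.mul_sum]
  refine Finset.sum_congr rfl fun j _ => ?_
  rw [← PP_mul j 0]
  have h1 : b j * (1 - tau b c j) = (0 - tau b c j) * c j := by
    rw [h.one_sub_tau]
    unfold tau
    have := h.hbc j
    field_simp
    ring
  rw [h1, ← mul_assoc, ← map_mul]
  congr 2
  ring

theorem LL_map {T : Type*} [CommRing T] [Algebra ℂ T] (φ : S →ₐ[ℂ] T) (y : Fin 5 → S) :
    (LL b c y).map (φ : S →+* T) = LL b c (fun j => φ (y j)) := by
  unfold LL
  rw [Polynomial.map_sum]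
  refine Finset.sum_congr rfl fun j _ => ?_
  rw [Polynomial.map_mul, Polynomial.map_C, Polynomial.map_map]
  have h1 : (φ : S →+* T).comp (algebraMap ℂ S) = algebraMap ℂ T := φ.comp_algebraMap
  rw [h1]
  simp

end

end Pool.Agent.Helper89.FI
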