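import Mathlib

set_option autoImplicit false

namespace Pool.Agent.Helper89.FI

open MvPolynomial

section

variable {n : ℕ}

attribute [local instance] MvPolynomial.gradedAlgebra

/-- The degree `j` part of an ideal, as a subspace. -/
noncomputable def gr (I : Ideal (MvPolynomial (Fin n) ℂ)) (j : ℕ) :
    Submodule ℂ (MvPolynomial (Fin n) ℂ) :=
  (Submodule.restrictScalars ℂ I) ⊓ homogeneousSubmodule (Fin n) ℂ j

theorem mem_gr {I : Ideal (MvPolynomial (Fin n) ℂ)} {j : ℕ} {x : MvPolynomial (Fin n) ℂ} :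
    x ∈ gr I j ↔ x ∈ I ∧ x ∈ homogeneousSubmodule (Fin n) ℂ j := by
  simp [gr]

instance finH (j : ℕ) : FiniteDimensional ℂ (homogeneousSubmodule (Fin n) ℂ j) :=
  Module.Finite.iff_fg.2 (homogeneousSubmodule_fg _ _ j)

instance finGr (I : Ideal (MvPolynomial (Fin n) ℂ)) (j : ℕ) :
    FiniteDimensional ℂ (gr I j) :=
  Submodule.finiteDimensional_of_le (S₂ := homogeneousSubmodule (Fin n) ℂ j) inf_le_right

/-- Multiplication by `f`. -/
noncomputable def mulMap (f : MvPolynomial (Fin n) ℂ) :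
    MvPolynomial (Fin n) ℂ →ₗ[ℂ] MvPolynomial (Fin n) ℂ := LinearMap.mulLeft ℂ f

theorem mulMap_apply (f x : MvPolynomial (Fin n) ℂ) : mulMap f x = f * x := rfl

theorem mulMap_inj {f : MvPolynomial (Fin n) ℂ} (hf : f ≠ 0) :
    Function.Injective (mulMap f) := by
  intro x y hxy
  exact mul_left_cancel₀ hf hxy

theorem finrank_map {f : MvPolynomial (Fin n) ℂ} (hf : f ≠ 0)
    (V : Submodule ℂ (MvPolynomial (Fin n) ℂ)) :
    Module.finrank ℂ (V.map (mulMap f)) = Module.finrank ℂ V := by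
  exact (Submodule.equivMapOfInjective _ (mulMap_inj hf) V).finrank_eq.symm

/-- The degree `d + j` part of `I + (f)` is contained in `I_{d+j} + f S_j`. -/
theorem gr_sup_le {I : Ideal (MvPolynomial (Fin n) ℂ)}
    (hI : I.IsHomogeneous (homogeneousSubmodule (Fin n) ℂ)) {f : MvPolynomial (Fin n) ℂ} {d : ℕ}
    (hf : f ∈ homogeneousSubmodule (Fin n) ℂ d) (j : ℕ) :
    gr (I ⊔ Ideal.span {f}) (d + j) ≤
      gr I (d + j) ⊔ (homogeneousSubmodule (Fin n) ℂ j).map (mulMap f) := by
  intro x hx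
  rw [mem_gr] at hx
  obtain ⟨hx1, hx2⟩ := hx
  rw [Submodule.mem_sup] at hx1
  obtain ⟨g, hg, y, hy, hxy⟩ := hx1
  rw [Ideal.mem_span_singleton'] at hy
  obtain ⟨h, rfl⟩ := hy
  have key : x = homogeneousComponent (d + j) g + f * homogeneousComponent j h := by
    have h1 : homogeneousComponent (d + j) x = x := homogeneousComponent_eq_self hx2
    have h2 : homogeneousComponent (d + j) (h * f) = f * homogeneousComponent j h := by
      have := DirectSum.coe_decompose_mul_of_left_mem_of_le (𝒜 := homogeneousSubmodule (Fin n) ℂ)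
        (a := f) (b := h) (n := d + j) (i := d) hf (Nat.le_add_right d j)
      rw [Nat.add_sub_cancel_left] at this
      have e1 := decomposition.decompose'_apply (f * h) (d + j)
      have e2 := decomposition.decompose'_apply h j
      rw [mul_comm h f, ← e1, ← e2]
      exact this
    rw [← h1, ← hxy, map_add, h2]
  rw [key]
  refine Submodule.add_mem_sup ?_ ?_
  · rw [mem_gr]
    exact ⟨homogeneousComponent_mem_of_mem hI hg _, homogeneousComponent_mem _ _⟩
  · exact Submodule.mem_map.2 ⟨_, homogeneousComponent_mem _ _, rfl⟩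

theorem map_le_inf {I : Ideal (MvPolynomial (Fin n) ℂ)}
    {f : MvPolynomial (Fin n) ℂ} {d : ℕ}
    (hf : f ∈ homogeneousSubmodule (Fin n) ℂ d) (j : ℕ) :
    (gr I j).map (mulMap f) ≤
      gr I (d + j) ⊓ (homogeneousSubmodule (Fin n) ℂ j).map (mulMap f) := by
  rintro _ ⟨x, hx, rfl⟩
  have hx' := mem_gr.1 hx
  refine ⟨mem_gr.2 ⟨I.mul_mem_left f hx'.1, ?_⟩, ⟨x, hx'.2, rfl⟩⟩
  exact IsHomogeneous.mul hf hx'.2

/-- Upper bound for the dimension of the degree `d + j` part of `I + (f)`. -/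
theorem finrank_gr_sup_le {I : Ideal (MvPolynomial (Fin n) ℂ)}
    (hI : I.IsHomogeneous (homogeneousSubmodule (Fin n) ℂ)) {f : MvPolynomial (Fin n) ℂ} {d : ℕ}
    (hf : f ∈ homogeneousSubmodule (Fin n) ℂ d) (hf0 : f ≠ 0) (j : ℕ) :
    Module.finrank ℂ (gr (I ⊔ Ideal.span {f}) (d + j)) + Module.finrank ℂ (gr I j) ≤
      Module.finrank ℂ (gr I (d + j)) + Module.finrank ℂ (homogeneousSubmodule (Fin n) ℂ j) := by
  have h1 := Submodule.finrank_mono (gr_sup_le hI hf j)
  have h2 := Submodule.finrank_sup_add_finrank_inf_eq (gr I (d + j))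
    ((homogeneousSubmodule (Fin n) ℂ j).map (mulMap f))
  have h3 := Submodule.finrank_mono (map_le_inf (I := I) hf j)
  rw [finrank_map hf0] at h2 h3
  omega

/-- The same bound, improved by one when multiplication by `f` on `S/I` has a kernel. -/
theorem finrank_gr_sup_le' {I : Ideal (MvPolynomial (Fin n) ℂ)}
    (hI : I.IsHomogeneous (homogeneousSubmodule (Fin n) ℂ)) {f : MvPolynomial (Fin n) ℂ} {d : ℕ}
    (hf : f ∈ homogeneousSubmodule (Fin n) ℂ d) (hf0 : f ≠ 0) (j : ℕ)
    (hker : ∃ G ∈ homogeneousSubmodule (Fin n) ℂ j, G ∉ I ∧ f * G ∈ I) :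
    Module.finrank ℂ (gr (I ⊔ Ideal.span {f}) (d + j)) + Module.finrank ℂ (gr I j) + 1 ≤
      Module.finrank ℂ (gr I (d + j)) + Module.finrank ℂ (homogeneousSubmodule (Fin n) ℂ j) := by
  obtain ⟨G, hG, hGI, hfG⟩ := hker
  have h1 := Submodule.finrank_mono (gr_sup_le hI hf j)
  have h2 := Submodule.finrank_sup_add_finrank_inf_eq (gr I (d + j))
    ((homogeneousSubmodule (Fin n) ℂ j).map (mulMap f))
  have h3 : (gr I j).map (mulMap f) <
      gr I (d + j) ⊓ (homogeneousSubmodule (Fin n) ℂ j).map (mulMap f) := by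
    refine lt_of_le_of_ne (map_le_inf hf j) ?_
    intro heq
    have hmem : mulMap f G ∈
        gr I (d + j) ⊓ (homogeneousSubmodule (Fin n) ℂ j).map (mulMap f) :=
      ⟨mem_gr.2 ⟨hfG, IsHomogeneous.mul hf hG⟩, ⟨G, hG, rfl⟩⟩
    rw [← heq] at hmem
    obtain ⟨G', hG', hGG'⟩ := hmem
    have := mulMap_inj hf0 hGG'
    rw [this] at hG'
    exact hGI (mem_gr.1 hG').1
  have h4 := Submodule.finrank_lt_finrank_of_lt h3
  rw [finrank_map hf0] at h2 h4
  omega

end

end Pool.Agent.Helper89.FI
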