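import Mathlib
import Pool.Agent.Helper89.FI.Graded

set_option autoImplicit false

namespace Pool.Agent.Helper89.FI

open MvPolynomial

section

variable {n : ℕ}

attribute [local instance] MvPolynomial.gradedAlgebra

/-- The linear form with coefficient vector `v`. -/
noncomputable def lin (v : Fin n → ℂ) : MvPolynomial (Fin n) ℂ := ∑ i : Fin n, C (v i) * X i

theorem lin_mem (v : Fin n → ℂ) : lin v ∈ homogeneousSubmodule (Fin n) ℂ 1 := by
  refine Submodule.sum_mem _ fun i _ => ?_
  exact isHomogeneous_C_mul_X _ _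

theorem lin_pow_mem (v : Fin n → ℂ) (d : ℕ) : lin v ^ d ∈ homogeneousSubmodule (Fin n) ℂ d := by
  have := IsHomogeneous.pow (lin_mem v) d
  rwa [one_mul] at this

theorem lin_ne_zero {v : Fin n → ℂ} (hv : v ≠ 0) : lin v ≠ 0 := by
  intro h
  apply hv
  funext i
  have h1 : coeff (Finsupp.single i 1) (lin v) = v i := by
    unfold lin
    rw [coeff_sum]
    rw [Finset.sum_eq_single i]
    · simp
    · intro j _ hj
      rw [coeff_C_mul, coeff_X, if_neg, mul_zero]
      intro h
      exact hj (Finsupp.single_left_injective one_ne_zero h)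
    · simp
  rw [← h1, h]
  simp

theorem lin_add (v w : Fin n → ℂ) : lin (v + w) = lin v + lin w := by
  simp [lin, add_mul, Finset.sum_add_distrib]

theorem lin_smul (c : ℂ) (v : Fin n → ℂ) : lin (c • v) = C c * lin v := by
  simp [lin, Finset.mul_sum, mul_assoc]

theorem lin_sum {ι : Type*} (s : Finset ι) (v : ι → Fin n → ℂ) :
    lin (∑ k ∈ s, v k) = ∑ k ∈ s, lin (v k) := by
  classical
  induction s using Finset.induction_on with
  | empty => simp [lin]
  | insert a s ha ih => rw [Finset.sum_insert ha, Finset.sum_insert ha, lin_add, ih]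

/-- The power ideal. -/
noncomputable def pI (r d : ℕ) (a : Fin r → Fin n → ℂ) : Ideal (MvPolynomial (Fin n) ℂ) :=
  Ideal.span (Set.range fun k : Fin r => lin (a k) ^ d)

theorem pI_homog (r d : ℕ) (a : Fin r → Fin n → ℂ) :
    (pI r d a).IsHomogeneous (homogeneousSubmodule (Fin n) ℂ) := by
  apply Ideal.homogeneous_span
  rintro _ ⟨k, rfl⟩
  exact ⟨d, lin_pow_mem _ _⟩

theorem pI_succ (r d : ℕ) (a : Fin (r + 1) → Fin n → ℂ) :
    pI (r + 1) d a = pI r d (fun k => a k.castSucc) ⊔ Ideal.span {lin (a (Fin.last r)) ^ d} := by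
  unfold pI
  rw [← Ideal.span_union]
  congr 1
  ext x
  simp only [Set.mem_range, Set.union_singleton, Set.mem_insert_iff]
  constructor
  · rintro ⟨k, rfl⟩
    refine Fin.lastCases (Or.inl rfl) (fun k => Or.inr ⟨k, rfl⟩) k
  · rintro (rfl | ⟨k, rfl⟩)
    · exact ⟨_, rfl⟩
    · exact ⟨_, rfl⟩

theorem mem_pI (r d : ℕ) (a : Fin r → Fin n → ℂ) (k : Fin r) : lin (a k) ^ d ∈ pI r d a :=
  Ideal.subset_span ⟨k, rfl⟩

/-- Passing from `r` to `r + 1` powers: general bound. -/
theorem finrank_pI_succ (r d : ℕ) (a : Fin (r + 1) → Fin n → ℂ) (h0 : a (Fin.last r) ≠ 0)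
    (j : ℕ) :
    Module.finrank ℂ (gr (pI (r + 1) d a) (d + j)) +
        Module.finrank ℂ (gr (pI r d fun k => a k.castSucc) j) ≤
      Module.finrank ℂ (gr (pI r d fun k => a k.castSucc) (d + j)) +
        Module.finrank ℂ (homogeneousSubmodule (Fin n) ℂ j) := by
  rw [pI_succ]
  exact finrank_gr_sup_le (pI_homog _ _ _) (lin_pow_mem _ _) (pow_ne_zero _ (lin_ne_zero h0)) j

/-- Passing from `r` to `r + 1` powers: bound in the presence of a kernel. -/
theorem finrank_pI_succ' (r d : ℕ) (a : Fin (r + 1) → Fin n → ℂ) (h0 : a (Fin.last r) ≠ 0)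
    (j : ℕ)
    (hker : ∃ G ∈ homogeneousSubmodule (Fin n) ℂ j, G ∉ pI r d (fun k => a k.castSucc) ∧
      lin (a (Fin.last r)) ^ d * G ∈ pI r d (fun k => a k.castSucc)) :
    Module.finrank ℂ (gr (pI (r + 1) d a) (d + j)) +
        Module.finrank ℂ (gr (pI r d fun k => a k.castSucc) j) + 1 ≤
      Module.finrank ℂ (gr (pI r d fun k => a k.castSucc) (d + j)) +
        Module.finrank ℂ (homogeneousSubmodule (Fin n) ℂ j) := by
  rw [pI_succ]
  exact finrank_gr_sup_le' (pI_homog _ _ _) (lin_pow_mem _ _) (pow_ne_zero _ (lin_ne_zero h0)) j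
    hker

end

end Pool.Agent.Helper89.FI
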