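import Mathlib

set_option autoImplicit false

namespace Pool.Agent.Helper89.FI

open MvPolynomial

/-- The ideal `(u^17, v^17)`. -/
noncomputable def Iuv : Ideal (MvPolynomial (Fin 2) ℂ) := Ideal.span {X 0 ^ 17, X 1 ^ 17}

/-- The exponent `(10, 11)`. -/
noncomputable def mm : Fin 2 →₀ ℕ := Finsupp.single 0 10 + Finsupp.single 1 11

theorem coeff_of_mem {f : MvPolynomial (Fin 2) ℂ} (hf : f ∈ Iuv) : coeff mm f = 0 := by
  unfold Iuv at hf
  rw [Ideal.mem_span_pair] at hf
  obtain ⟨p, q, rfl⟩ := hf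
  rw [coeff_add, mul_comm p, mul_comm q, X_pow_eq_monomial, X_pow_eq_monomial,
    coeff_monomial_mul', coeff_monomial_mul', if_neg, if_neg, add_zero]
  · intro h
    have := h 1
    simp [mm] at this
  · intro h
    have := h 0
    simp [mm] at this

theorem coeff_pow (α β : ℂ) :
    coeff mm ((C α * X 0 + C β * X 1 : MvPolynomial (Fin 2) ℂ) ^ 21) =
      (Nat.choose 21 10 : ℂ) * α ^ 10 * β ^ 11 := by
  rw [add_pow, coeff_sum]
  have hterm : ∀ m ∈ Finset.range 22, coeff mm ((C α * X 0 : MvPolynomial (Fin 2) ℂ) ^ m *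
      (C β * X 1) ^ (21 - m) * ((Nat.choose 21 m : ℕ) : MvPolynomial (Fin 2) ℂ)) =
      if m = 10 then (Nat.choose 21 10 : ℂ) * α ^ 10 * β ^ 11 else 0 := by
    intro m _
    have h1 : (C α * X 0 : MvPolynomial (Fin 2) ℂ) ^ m *
      (C β * X 1) ^ (21 - m) * ((Nat.choose 21 m : ℕ) : MvPolynomial (Fin 2) ℂ) =
      monomial (Finsupp.single 0 m + Finsupp.single 1 (21 - m))
        (α ^ m * β ^ (21 - m) * (Nat.choose 21 m : ℂ)) := by
      rw [mul_pow, mul_pow, X_pow_eq_monomial, X_pow_eq_monomial, ← C_pow, ← C_pow,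
        C_mul_monomial, C_mul_monomial, monomial_mul]
      have : ((Nat.choose 21 m : ℕ) : MvPolynomial (Fin 2) ℂ) = C (Nat.choose 21 m : ℂ) := by
        simp
      rw [this, mul_comm, C_mul_monomial]
      congr 1
      ring
    rw [h1, coeff_monomial]
    by_cases hm : m = 10
    · subst hm
      have h2 : (Finsupp.single 0 10 + Finsupp.single 1 (21 - 10) : Fin 2 →₀ ℕ) = mm := rfl
      rw [if_pos h2, if_pos rfl]
      ring
    · rw [if_neg hm, if_neg]
      intro h
      apply hm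
      have := DFunLike.congr_fun h 0
      simpa [mm] using this
  rw [Finset.sum_congr rfl hterm, Finset.sum_ite_eq' (Finset.range 22) 10]
  simp

end Pool.Agent.Helper89.FI
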