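import Mathlib
import Pool.Agent.Helper89.FI.Curve
import Pool.Agent.Helper89.FI.TwoVar
import Pool.Agent.Helper89.FI.Span

set_option autoImplicit false

namespace Pool.Agent.Helper89.FI

section

variable {b c : Fin 5 → ℂ}

theorem lin_comb (v : Fin 5 → Fin 5 → ℂ) (b : Fin 5 → ℂ) :
    lin (∑ j, b j • v j) =
      ∑ j, algebraMap ℂ (MvPolynomial (Fin 5) ℂ) (b j) * lin (v j) := by
  rw [lin_sum]
  refine Finset.sum_congr rfl fun j _ => ?_
  rw [lin_smul, MvPolynomial.algebraMap_eq]

theorem LL_eq (L : Polynomial (MvPolynomial (Fin 5) ℂ)) :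
    L = Polynomial.X * L.divX + Polynomial.C (L.coeff 0) := by
  conv_lhs => rw [← Polynomial.divX_mul_X_add L]
  rw [mul_comm]

theorem HP_LL (v : Fin 5 → Fin 5 → ℂ) : HP 1 (LL b c fun j => lin (v j)) := by
  unfold LL
  refine HP.sum _ _ fun j _ => ?_
  have h1 : HP 1 (Polynomial.C (algebraMap ℂ (MvPolynomial (Fin 5) ℂ)
      (b j * (1 - tau b c j)) * lin (v j))) := by
    apply HP.C
    rw [← Algebra.smul_def]
    exact Submodule.smul_mem _ _ (lin_mem _)
  have h2 : HP 0 ((PP b c j).map (algebraMap ℂ (MvPolynomial (Fin 5) ℂ))) := by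
    intro k
    rw [Polynomial.coeff_map]
    exact MvPolynomial.isHomogeneous_C _ _
  exact h1.mul h2

/-- relation: `x0^17 * G` lies in the ideal of the first six powers. -/
theorem rel_mem (h : Good b c) (w : Fin 6 → Fin 5 → ℂ)
    (hw : w (Fin.last 5) = ∑ j, b j • w (Fin.castSucc j)) :
    ((LL b c fun j => lin (w (Fin.castSucc j))).coeff 0) ^ 17 *
      GG (UU (tt b c)) ((LL b c fun j => lin (w (Fin.castSucc j))).coeff 0)
        (LL b c fun j => lin (w (Fin.castSucc j))).divX ∈ pI 6 17 w := by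
  set v : Fin 5 → Fin 5 → ℂ := fun j => w (Fin.castSucc j) with hv
  set L := LL b c fun j => lin (v j) with hL
  set J := pI 6 17 w with hJ
  rw [← coeff_expand, ← LL_eq L, ← Ideal.Quotient.eq_zero_iff_mem]
  let mk : MvPolynomial (Fin 5) ℂ →ₐ[ℂ] (MvPolynomial (Fin 5) ℂ ⧸ J) := Ideal.Quotient.mkₐ ℂ J
  have hmap : (L.map (mk : MvPolynomial (Fin 5) ℂ →+* (MvPolynomial (Fin 5) ℂ ⧸ J))) =
      LL b c fun j => mk (lin (v j)) := LL_map mk _
  have hmem : ∀ k, (mk (lin (w k))) ^ 17 = 0 := by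
    intro k
    rw [← map_pow]
    exact Ideal.Quotient.eq_zero_iff_mem.2 (mem_pI 6 17 w k)
  have hres := residue_relation (R := MvPolynomial (Fin 5) ℂ ⧸ J)
    (LL b c fun j => mk (lin (v j))) (LL_natDegree _) (tt b c) h.tt_inj h.tt_ne_zero (by
      intro k
      refine Fin.lastCases ?_ (fun k => ?_) k
      · rw [tt, Fin.snoc_last, map_one, LL_eval_one]
        have : ∑ j, (algebraMap ℂ (MvPolynomial (Fin 5) ℂ ⧸ J)) (b j) * mk (lin (v j)) =
            mk (lin (w (Fin.last 5))) := by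
          rw [hw, lin_comb, map_sum]
          refine Finset.sum_congr rfl fun j _ => ?_
          rw [map_mul, AlgHom.commutes]
        rw [this, mul_pow, hmem, mul_zero]
      · rw [tt, Fin.snoc_castSucc, LL_eval_tau, mul_pow, hmem, mul_zero])
  rw [← hres, ← hmap]
  rw [PowerSeries.coeff_mul, PowerSeries.coeff_mul, map_sum]
  refine Finset.sum_congr rfl fun p _ => ?_
  rw [map_mul, PowerSeries.coeff_map, PowerSeries.coeff_map, Polynomial.coeff_coe,
    Polynomial.coeff_coe, ← Polynomial.map_pow, Polynomial.coeff_map]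
  rfl

theorem exists_hom (v : Fin 5 → Fin 5 → ℂ) (hdet : (Matrix.of v).det ≠ 0) {T : Type*} [CommRing T]
    [Algebra ℂ T] (z : Fin 5 → T) :
    ∃ φ : MvPolynomial (Fin 5) ℂ →ₐ[ℂ] T, ∀ j, φ (lin (v j)) = z j := by
  set A : Matrix (Fin 5) (Fin 5) ℂ := Matrix.of v with hA
  have hu : IsUnit A.det := IsUnit.mk0 _ hdet
  refine ⟨MvPolynomial.aeval fun i => ∑ j, algebraMap ℂ T (A⁻¹ i j) * z j, fun k => ?_⟩
  unfold lin
  rw [map_sum]
  have h1 : ∀ i, (MvPolynomial.aeval fun i => ∑ j, algebraMap ℂ T (A⁻¹ i j) * z j)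
      (MvPolynomial.C (v k i) * MvPolynomial.X i) =
      ∑ j, algebraMap ℂ T (A k i * A⁻¹ i j) * z j := by
    intro i
    rw [map_mul, MvPolynomial.aeval_X, ← MvPolynomial.algebraMap_eq, AlgHom.commutes,
      Finset.mul_sum]
    refine Finset.sum_congr rfl fun j _ => ?_
    rw [map_mul, mul_assoc]
    rfl
  rw [Finset.sum_congr rfl fun i _ => h1 i, Finset.sum_comm]
  have h2 : ∀ j, ∑ i, algebraMap ℂ T (A k i * A⁻¹ i j) * z j =
      algebraMap ℂ T ((A * A⁻¹) k j) * z j := by
    intro j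
    rw [Matrix.mul_apply, map_sum, Finset.sum_mul]
  rw [Finset.sum_congr rfl fun j _ => h2 j, Matrix.mul_nonsing_inv A hu, Finset.sum_eq_single k]
  · simp
  · intro j _ hj
    rw [Matrix.one_apply_ne (Ne.symm hj)]
    simp
  · simp

/-- First auxiliary polynomial. -/
noncomputable def h1 (b c : Fin 5 → ℂ) : Polynomial ℂ :=
  Polynomial.X * (Polynomial.X - Polynomial.C (tau b c 0)) *
    (Polynomial.X - Polynomial.C (tau b c 1)) * (Polynomial.X - Polynomial.C (tau b c 2))

/-- Second auxiliary polynomial. -/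
noncomputable def h2 (b c : Fin 5 → ℂ) : Polynomial ℂ :=
  Polynomial.X * (Polynomial.X - Polynomial.C (tau b c 3)) *
    (Polynomial.X - Polynomial.C (tau b c 4)) * (Polynomial.X - Polynomial.C 1)

/-- Normalising factor at the `j`-th point. -/
noncomputable def den (b c : Fin 5 → ℂ) (j : Fin 5) : ℂ :=
  b j * (1 - tau b c j) * (PP b c j).eval (tau b c j)

theorem Good.den_ne (h : Good b c) (j : Fin 5) : den b c j ≠ 0 :=
  mul_ne_zero (mul_ne_zero (h.hb j) (h.one_sub_tau_ne j)) (h.PP_eval_self j)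

/-- Images of the first five linear forms. -/
noncomputable def zz (b c : Fin 5 → ℂ) (j : Fin 5) : MvPolynomial (Fin 2) ℂ :=
  algebraMap ℂ _ ((h1 b c).eval (tau b c j) / den b c j) * MvPolynomial.X 0 +
    algebraMap ℂ _ ((h2 b c).eval (tau b c j) / den b c j) * MvPolynomial.X 1

theorem h1_natDegree : (h1 b c).natDegree = 4 := by
  unfold h1
  compute_degree!

theorem h2_natDegree : (h2 b c).natDegree = 4 := by
  unfold h2
  compute_degree!

theorem LL_zz (h : Good b c) :
    LL b c (zz b c) = (h1 b c).map (algebraMap ℂ (MvPolynomial (Fin 2) ℂ)) *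
        Polynomial.C (MvPolynomial.X 0) +
      (h2 b c).map (algebraMap ℂ (MvPolynomial (Fin 2) ℂ)) * Polynomial.C (MvPolynomial.X 1) := by
  apply Polynomial.eq_of_degrees_lt_of_eval_index_eq (s := Finset.univ)
    (v := fun j : Fin 5 => algebraMap ℂ (MvPolynomial (Fin 2) ℂ) (tau b c j))
  · intro i _ j _ hij
    exact h.tau_inj ((algebraMap ℂ (MvPolynomial (Fin 2) ℂ)).injective hij)
  · refine lt_of_le_of_lt Polynomial.degree_le_natDegree ?_
    have := LL_natDegree (b := b) (c := c) (zz b c)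
    simp only [Finset.card_univ, Fintype.card_fin]
    exact_mod_cast Nat.lt_succ_of_le this
  · refine lt_of_le_of_lt Polynomial.degree_le_natDegree ?_
    have : ((h1 b c).map (algebraMap ℂ (MvPolynomial (Fin 2) ℂ)) *
        Polynomial.C (MvPolynomial.X 0) +
      (h2 b c).map (algebraMap ℂ (MvPolynomial (Fin 2) ℂ)) *
        Polynomial.C (MvPolynomial.X 1)).natDegree ≤ 4 := by
      refine Polynomial.natDegree_add_le_of_degree_le ?_ ?_
      · refine (Polynomial.natDegree_mul_C_le _ _).trans ?_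
        exact Polynomial.natDegree_map_le.trans h1_natDegree.le
      · refine (Polynomial.natDegree_mul_C_le _ _).trans ?_
        exact Polynomial.natDegree_map_le.trans h2_natDegree.le
    simp only [Finset.card_univ, Fintype.card_fin]
    exact_mod_cast Nat.lt_succ_of_le this
  · intro i _
    have hd := h.den_ne i
    rw [LL_eval_tau, Polynomial.eval_add, Polynomial.eval_mul, Polynomial.eval_mul,
      Polynomial.eval_C, Polynomial.eval_C, Polynomial.eval_map_algebraMap,
      Polynomial.eval_map_algebraMap, Polynomial.aeval_algebraMap_apply,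
      Polynomial.aeval_algebraMap_apply, Polynomial.coe_aeval_eq_eval]
    unfold zz
    change algebraMap ℂ _ (den b c i) * _ = _
    rw [mul_add, ← mul_assoc, ← mul_assoc, ← map_mul, ← map_mul, mul_div_cancel₀ _ hd,
      mul_div_cancel₀ _ hd]

end

end Pool.Agent.Helper89.FI
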