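import Mathlib
import Pool.Agent.Helper89.FI.Main

set_option autoImplicit false

namespace Pool.Agent.Helper89.FI

section

variable {b c : Fin 5 → ℂ}

theorem h1_eval (s : ℂ) : (h1 b c).eval s = s * (s - tau b c 0) * (s - tau b c 1) *
    (s - tau b c 2) := by
  simp [h1]

theorem h2_eval (s : ℂ) : (h2 b c).eval s = s * (s - tau b c 3) * (s - tau b c 4) *
    (s - 1) := by
  simp [h2]

theorem h1_coeff_zero : (h1 b c).coeff 0 = 0 := by
  simp [h1, mul_assoc]

theorem h2_coeff_zero : (h2 b c).coeff 0 = 0 := by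
  simp [h2, mul_assoc]

theorem h1_coeff_one : (h1 b c).coeff 1 = -(tau b c 0 * tau b c 1 * tau b c 2) := by
  have : h1 b c = Polynomial.X * ((Polynomial.X - Polynomial.C (tau b c 0)) *
    (Polynomial.X - Polynomial.C (tau b c 1)) * (Polynomial.X - Polynomial.C (tau b c 2))) := by
    unfold h1; ring
  rw [this, Polynomial.coeff_X_mul, Polynomial.coeff_zero_eq_eval_zero]
  simp

theorem h2_coeff_one : (h2 b c).coeff 1 = -(tau b c 3 * tau b c 4) := by
  have : h2 b c = Polynomial.X * ((Polynomial.X - Polynomial.C (tau b c 3)) *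
    (Polynomial.X - Polynomial.C (tau b c 4)) * (Polynomial.X - Polynomial.C 1)) := by
    unfold h2; ring
  rw [this, Polynomial.coeff_X_mul, Polynomial.coeff_zero_eq_eval_zero]
  simp

theorem X0_mem (s : ℂ) :
    (algebraMap ℂ (MvPolynomial (Fin 2) ℂ) s * MvPolynomial.X 0) ^ 17 ∈ Iuv := by
  rw [mul_pow]
  exact Ideal.mul_mem_left _ _ (Ideal.subset_span (by simp))

theorem X1_mem (s : ℂ) :
    (algebraMap ℂ (MvPolynomial (Fin 2) ℂ) s * MvPolynomial.X 1) ^ 17 ∈ Iuv := by
  rw [mul_pow]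
  exact Ideal.mul_mem_left _ _ (Ideal.subset_span (by simp))

theorem zz_mem (j : Fin 5) : (zz b c j) ^ 17 ∈ Iuv := by
  unfold zz
  fin_cases j
  · have : (h1 b c).eval (tau b c 0) = 0 := by rw [h1_eval]; simp
    simpa [this] using X1_mem ((h2 b c).eval (tau b c 0) / den b c 0)
  · have : (h1 b c).eval (tau b c 1) = 0 := by rw [h1_eval]; simp
    simpa [this] using X1_mem ((h2 b c).eval (tau b c 1) / den b c 1)
  · have : (h1 b c).eval (tau b c 2) = 0 := by rw [h1_eval]; simp
    simpa [this] using X1_mem ((h2 b c).eval (tau b c 2) / den b c 2)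
  · have : (h2 b c).eval (tau b c 3) = 0 := by rw [h2_eval]; simp
    simpa [this] using X0_mem ((h1 b c).eval (tau b c 3) / den b c 3)
  · have : (h2 b c).eval (tau b c 4) = 0 := by rw [h2_eval]; simp
    simpa [this] using X0_mem ((h1 b c).eval (tau b c 4) / den b c 4)

theorem GG_not_mem (h : Good b c) (w : Fin 6 → Fin 5 → ℂ)
    (hw : w (Fin.last 5) = ∑ j, b j • w (Fin.castSucc j))
    (hdet : (Matrix.of fun j : Fin 5 => w (Fin.castSucc j)).det ≠ 0) :
    GG (UU (tt b c)) ((LL b c fun j => lin (w (Fin.castSucc j))).coeff 0)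
        (LL b c fun j => lin (w (Fin.castSucc j))).divX ∉ pI 6 17 w := by
  intro hmem
  obtain ⟨φ, hφ⟩ := exists_hom (fun j : Fin 5 => w (Fin.castSucc j)) hdet (zz b c)
  set L := LL b c fun j => lin (w (Fin.castSucc j)) with hL
  have hLφ : L.map (φ : MvPolynomial (Fin 5) ℂ →+* MvPolynomial (Fin 2) ℂ) =
      LL b c (zz b c) := by
    rw [hL, LL_map]
    congr 1
    funext j
    exact hφ j
  have hc0 : φ (L.coeff 0) = 0 := by
    have := congrArg (fun p => Polynomial.coeff p 0) hLφ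
    simp only [Polynomial.coeff_map] at this
    change φ (L.coeff 0) = _ at this
    rw [this, LL_zz h]
    simp [Polynomial.coeff_map, h1_coeff_zero, h2_coeff_zero]
  have hc1 : φ (L.coeff 1) =
      algebraMap ℂ _ ((h1 b c).coeff 1) * MvPolynomial.X 0 +
        algebraMap ℂ _ ((h2 b c).coeff 1) * MvPolynomial.X 1 := by
    have := congrArg (fun p => Polynomial.coeff p 1) hLφ
    simp only [Polynomial.coeff_map] at this
    change φ (L.coeff 1) = _ at this
    rw [this, LL_zz h, Polynomial.coeff_add, Polynomial.coeff_mul_C, Polynomial.coeff_mul_C,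
      Polynomial.coeff_map, Polynomial.coeff_map]
  have hlast : (φ (lin (w (Fin.last 5)))) ^ 17 ∈ Iuv := by
    have e1 := LL_eval_one (b := b) (c := c) (zz b c)
    have e2 : (∑ j, algebraMap ℂ (MvPolynomial (Fin 2) ℂ) (b j) * zz b c j) =
        φ (lin (w (Fin.last 5))) := by
      rw [hw, lin_comb, map_sum]
      refine Finset.sum_congr rfl fun j _ => ?_
      rw [map_mul, AlgHom.commutes, hφ]
    have e3 : (LL b c (zz b c)).eval 1 =
        algebraMap ℂ (MvPolynomial (Fin 2) ℂ) ((h1 b c).eval 1) * MvPolynomial.X 0 := by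
      rw [LL_zz h, Polynomial.eval_add, Polynomial.eval_mul, Polynomial.eval_mul,
        Polynomial.eval_C, Polynomial.eval_C, Polynomial.eval_map_algebraMap,
        Polynomial.eval_map_algebraMap]
      have := Polynomial.aeval_algebraMap_apply (MvPolynomial (Fin 2) ℂ) (1 : ℂ) (h1 b c)
      rw [map_one] at this
      rw [this]
      have := Polynomial.aeval_algebraMap_apply (MvPolynomial (Fin 2) ℂ) (1 : ℂ) (h2 b c)
      rw [map_one] at this
      rw [this, Polynomial.coe_aeval_eq_eval, h2_eval]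
      simp
    rw [e2, e3] at e1
    have hk : (∏ k, (1 - tau b c k)) ≠ 0 :=
      Finset.prod_ne_zero_iff.2 fun k _ => h.one_sub_tau_ne k
    have e4 : φ (lin (w (Fin.last 5))) =
        algebraMap ℂ _ ((∏ k, (1 - tau b c k))⁻¹ * (h1 b c).eval 1) * MvPolynomial.X 0 := by
      rw [map_mul, mul_assoc, e1, ← mul_assoc, ← map_mul, inv_mul_cancel₀ hk, map_one, one_mul]
    rw [e4]
    exact X0_mem _
  have hle : pI 6 17 w ≤ Iuv.comap φ := by
    unfold pI
    rw [Ideal.span_le]
    rintro _ ⟨k, rfl⟩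
    simp only [SetLike.mem_coe, Ideal.mem_comap, map_pow]
    refine Fin.lastCases ?_ (fun k => ?_) k
    · exact hlast
    · rw [hφ]
      exact zz_mem k
  have h3 := coeff_of_mem (Ideal.mem_comap.1 (hle hmem))
  rw [map_GG φ _ _ _ hc0] at h3
  have hd : (L.divX).coeff 0 = L.coeff 1 := by
    rw [Polynomial.coeff_divX]
  rw [hd, hc1] at h3
  have hcast : ((Nat.choose 38 21 : ℕ) : MvPolynomial (Fin 2) ℂ) =
      MvPolynomial.C (Nat.choose 38 21 : ℂ) := by simp
  rw [hcast, mul_comm, ← mul_assoc, MvPolynomial.algebraMap_eq, ← map_mul,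
    MvPolynomial.coeff_C_mul, coeff_pow] at h3
  have hu := UU_const h.tt_ne_zero
  have hα : (h1 b c).coeff 1 ≠ 0 := by
    rw [h1_coeff_one]
    exact neg_ne_zero.2 (mul_ne_zero (mul_ne_zero (h.tau_ne_zero _) (h.tau_ne_zero _))
      (h.tau_ne_zero _))
  have hβ : (h2 b c).coeff 1 ≠ 0 := by
    rw [h2_coeff_one]
    exact neg_ne_zero.2 (mul_ne_zero (h.tau_ne_zero _) (h.tau_ne_zero _))
  have hn1 : ((Nat.choose 38 21 : ℕ) : ℂ) ≠ 0 := by
    exact_mod_cast (Nat.choose_pos (by norm_num)).ne'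
  have hn2 : ((Nat.choose 21 10 : ℕ) : ℂ) ≠ 0 := by
    exact_mod_cast (Nat.choose_pos (by norm_num)).ne'
  exact (mul_ne_zero (mul_ne_zero hn1 hu) (mul_ne_zero (mul_ne_zero hn2 (pow_ne_zero _ hα))
    (pow_ne_zero _ hβ))) h3

/-- Existence of a kernel element. -/
theorem kernel_exists (h : Good b c) (w : Fin 6 → Fin 5 → ℂ)
    (hw : w (Fin.last 5) = ∑ j, b j • w (Fin.castSucc j))
    (hdet : (Matrix.of fun j : Fin 5 => w (Fin.castSucc j)).det ≠ 0) :
    ∃ G ∈ MvPolynomial.homogeneousSubmodule (Fin 5) ℂ 21, G ∉ pI 6 17 w ∧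
      lin (∑ j, c j • w (Fin.castSucc j)) ^ 17 * G ∈ pI 6 17 w := by
  refine ⟨_, ?_, GG_not_mem h w hw hdet, ?_⟩
  · apply GG_mem
    · exact HP_LL _ 0
    · intro k
      rw [Polynomial.coeff_divX]
      exact HP_LL _ _
  · have h1 := rel_mem h w hw
    have h2 : (LL b c fun j => lin (w (Fin.castSucc j))).coeff 0 =
        algebraMap ℂ _ (∏ k, (0 - tau b c k)) * lin (∑ j, c j • w (Fin.castSucc j)) := by
      rw [Polynomial.coeff_zero_eq_eval_zero, h.LL_eval_zero, lin_comb]
    have hk : (∏ k, (0 - tau b c k)) ≠ 0 := by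
      refine Finset.prod_ne_zero_iff.2 fun k _ => ?_
      rw [zero_sub]
      exact neg_ne_zero.2 (h.tau_ne_zero k)
    have h3 : lin (∑ j, c j • w (Fin.castSucc j)) ^ 17 = algebraMap ℂ _ ((∏ k, (0 - tau b c k))⁻¹ ^ 17) *
        (LL b c fun j => lin (w (Fin.castSucc j))).coeff 0 ^ 17 := by
      rw [h2, mul_pow, ← mul_assoc, ← map_pow, ← map_mul, ← mul_pow, inv_mul_cancel₀ hk, one_pow,
        map_one, one_mul]
    rw [h3, mul_assoc]
    exact Ideal.mul_mem_left _ _ h1

end

end Pool.Agent.Helper89.FI
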