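import Mathlib
import Pool.Agent.Helper89.FI.NonMem

set_option autoImplicit false

namespace Pool.Agent.Helper89.FI

section

/-- Index of the first five points among nine. -/
def e5 (j : Fin 5) : Fin 9 := j.castSucc.castSucc.castSucc.castSucc

/-- The matrix of the first five points. -/
def matA {R : Type*} (x : Fin 9 → Fin 5 → R) : Matrix (Fin 5) (Fin 5) R :=
  Matrix.of fun j i => x (e5 j) i

/-- Unnormalised coordinates of the sixth point. -/
def cB {R : Type*} [CommRing R] (x : Fin 9 → Fin 5 → R) : Fin 5 → R :=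
  Matrix.vecMul (x 5) (matA x).adjugate

/-- Unnormalised coordinates of the seventh point. -/
def cC {R : Type*} [CommRing R] (x : Fin 9 → Fin 5 → R) : Fin 5 → R :=
  Matrix.vecMul (x 6) (matA x).adjugate

/-- The genericity polynomial. -/
def QQ {R : Type*} [CommRing R] (x : Fin 9 → Fin 5 → R) : R :=
  (matA x).det * (∏ j, cB x j) * (∏ j, cC x j) * (∏ j, (cB x j - cC x j)) *
    (∏ i, ∏ j ∈ Finset.univ.erase i, (cB x i * cC x j - cB x j * cC x i)) *
    (x 6 0 * x 7 0 * x 8 0)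

theorem matA_map {R S : Type*} [CommRing R] [CommRing S] (f : R →+* S)
    (x : Fin 9 → Fin 5 → R) : matA (fun k i => f (x k i)) = f.mapMatrix (matA x) := by
  ext i j
  simp [matA]

theorem cB_map {R S : Type*} [CommRing R] [CommRing S] (f : R →+* S)
    (x : Fin 9 → Fin 5 → R) (j : Fin 5) : cB (fun k i => f (x k i)) j = f (cB x j) := by
  unfold cB
  rw [matA_map, ← RingHom.map_adjugate]
  simp [Matrix.vecMul, dotProduct]

theorem cC_map {R S : Type*} [CommRing R] [CommRing S] (f : R →+* S)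
    (x : Fin 9 → Fin 5 → R) (j : Fin 5) : cC (fun k i => f (x k i)) j = f (cC x j) := by
  unfold cC
  rw [matA_map, ← RingHom.map_adjugate]
  simp [Matrix.vecMul, dotProduct]

theorem QQ_map {R S : Type*} [CommRing R] [CommRing S] (f : R →+* S)
    (x : Fin 9 → Fin 5 → R) : QQ (fun k i => f (x k i)) = f (QQ x) := by
  unfold QQ
  simp only [cB_map, cC_map, matA_map, map_mul, map_prod, map_sub, RingHom.map_det]

/-- The special point. -/
def x0 : Fin 9 → Fin 5 → ℂ :=
  ![![1, 0, 0, 0, 0], ![0, 1, 0, 0, 0], ![0, 0, 1, 0, 0], ![0, 0, 0, 1, 0], ![0, 0, 0, 0, 1],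
    ![1, 1, 1, 1, 1], ![2, 3, 4, 5, 6], ![1, 1, 1, 1, 1], ![1, 1, 1, 1, 1]]

theorem matA_x0 : matA x0 = 1 := by
  ext i j
  fin_cases i <;> fin_cases j <;> rfl

theorem QQ_x0 : QQ x0 ≠ 0 := by
  have hB : cB x0 = ![1, 1, 1, 1, 1] := by
    unfold cB
    rw [matA_x0, Matrix.adjugate_one, Matrix.vecMul_one]
    rfl
  have hC : cC x0 = ![2, 3, 4, 5, 6] := by
    unfold cC
    rw [matA_x0, Matrix.adjugate_one, Matrix.vecMul_one]
    rfl
  unfold QQ
  rw [hB, hC, matA_x0, Matrix.det_one]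
  have h1 : (∏ j : Fin 5, (![1, 1, 1, 1, 1] : Fin 5 → ℂ) j) = 1 := by
    simp [Fin.prod_univ_succ]
  have h2 : (∏ j : Fin 5, (![2, 3, 4, 5, 6] : Fin 5 → ℂ) j) ≠ 0 := by
    simp [Fin.prod_univ_succ]
  have h3 : (∏ j : Fin 5, ((![1, 1, 1, 1, 1] : Fin 5 → ℂ) j -
      (![2, 3, 4, 5, 6] : Fin 5 → ℂ) j)) ≠ 0 := by
    simp only [Fin.prod_univ_succ, Matrix.cons_val_zero, Matrix.cons_val_succ]
    norm_num
  have h4 : (∏ i : Fin 5, ∏ j ∈ Finset.univ.erase i, ((![1, 1, 1, 1, 1] : Fin 5 → ℂ) i *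
      (![2, 3, 4, 5, 6] : Fin 5 → ℂ) j - (![1, 1, 1, 1, 1] : Fin 5 → ℂ) j *
      (![2, 3, 4, 5, 6] : Fin 5 → ℂ) i)) ≠ 0 := by
    refine Finset.prod_ne_zero_iff.2 fun i _ => Finset.prod_ne_zero_iff.2 fun j hj => ?_
    have hij := (Finset.mem_erase.1 hj).1
    fin_cases i <;> fin_cases j <;> first | (exact absurd rfl hij) | norm_num
  have h5 : x0 6 0 * x0 7 0 * x0 8 0 ≠ 0 := by
    have e6 : x0 6 0 = 2 := rfl
    have e7 : x0 7 0 = 1 := rfl
    have e8 : x0 8 0 = 1 := rfl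
    rw [e6, e7, e8]
    norm_num
  rw [h1]
  simp only [one_mul]
  exact mul_ne_zero (mul_ne_zero (mul_ne_zero h2 h3) h4) h5

/-- The generic point. -/
noncomputable def xG : Fin 9 → Fin 5 → MvPolynomial (Fin 9 × Fin 5) ℂ :=
  fun k i => MvPolynomial.X (k, i)

theorem eval_QQ (a : Fin 9 → Fin 5 → ℂ) :
    MvPolynomial.eval (fun p : Fin 9 × Fin 5 => a p.1 p.2) (QQ xG) = QQ a := by
  rw [← QQ_map]
  simp [xG]

theorem exists_eval_ne {σ : Type*} (P : MvPolynomial σ ℂ) (hP : P ≠ 0) :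
    ∃ x : σ → ℂ, MvPolynomial.eval x P ≠ 0 := by
  by_contra h
  push Not at h
  exact hP (MvPolynomial.funext fun x => by rw [h x, map_zero])

/-- the inclusion of index sets -/
def inc : Fin 6 × Fin 5 → Fin 9 × Fin 5 := fun p => (p.1.castSucc.castSucc.castSucc, p.2)

theorem inc_inj : Function.Injective inc := by
  rintro ⟨a, b⟩ ⟨c, d⟩ h
  simp only [inc, Prod.mk.injEq, Fin.castSucc_inj] at h
  exact Prod.ext h.1 h.2

theorem vecMul_matA (a : Fin 9 → Fin 5 → ℂ) (v : Fin 5 → ℂ) (hd : (matA a).det ≠ 0) :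
    v = ∑ j, (Matrix.vecMul v (matA a).adjugate j / (matA a).det) • a (e5 j) := by
  have h : Matrix.vecMul (Matrix.vecMul v (matA a).adjugate) (matA a) = (matA a).det • v := by
    rw [Matrix.vecMul_vecMul, Matrix.adjugate_mul, Matrix.vecMul_smul, Matrix.vecMul_one]
  funext i
  have h2 := congrFun h i
  rw [Finset.sum_apply]
  simp only [Pi.smul_apply, smul_eq_mul] at h2 ⊢
  have h3 : ∑ j, Matrix.vecMul v (matA a).adjugate j / (matA a).det * a (e5 j) i =
      Matrix.vecMul (Matrix.vecMul v (matA a).adjugate) (matA a) i / (matA a).det := by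
    rw [Matrix.vecMul, dotProduct, Finset.sum_div]
    refine Finset.sum_congr rfl fun j _ => ?_
    rw [div_mul_eq_mul_div]
    rfl
  rw [h3, h2, mul_div_cancel_left₀ _ hd]

/-- A sufficiently general configuration exists. -/
theorem exists_config (P9 : MvPolynomial (Fin 9 × Fin 5) ℂ) (h9 : P9 ≠ 0)
    (P6 : MvPolynomial (Fin 6 × Fin 5) ℂ) (h6 : P6 ≠ 0) :
    ∃ (a : Fin 9 → Fin 5 → ℂ) (b c : Fin 5 → ℂ), Good b c ∧
      MvPolynomial.eval (fun p : Fin 9 × Fin 5 => a p.1 p.2) P9 ≠ 0 ∧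
      MvPolynomial.eval (fun p : Fin 6 × Fin 5 => a p.1.castSucc.castSucc.castSucc p.2) P6 ≠ 0 ∧
      (matA a).det ≠ 0 ∧ a 5 = ∑ j, b j • a (e5 j) ∧ a 6 = ∑ j, c j • a (e5 j) ∧
      a 6 ≠ 0 ∧ a 7 ≠ 0 ∧ a 8 ≠ 0 := by
  have hQ : QQ xG ≠ 0 := by
    intro h
    apply QQ_x0
    rw [← eval_QQ, h, map_zero]
  have h6' : MvPolynomial.rename inc P6 ≠ 0 := by
    intro h
    apply h6
    apply MvPolynomial.rename_injective inc inc_inj
    rw [h, map_zero]
  obtain ⟨x, hx⟩ := exists_eval_ne _ (mul_ne_zero (mul_ne_zero h9 h6') hQ)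
  set a : Fin 9 → Fin 5 → ℂ := fun k i => x (k, i) with ha
  have hxa : x = fun p : Fin 9 × Fin 5 => a p.1 p.2 := rfl
  rw [map_mul, map_mul, hxa, eval_QQ, MvPolynomial.eval_rename] at hx
  have hx9 := left_ne_zero_of_mul (left_ne_zero_of_mul hx)
  have hx6 := right_ne_zero_of_mul (left_ne_zero_of_mul hx)
  have hxQ := right_ne_zero_of_mul hx
  unfold QQ at hxQ
  have hlast := right_ne_zero_of_mul hxQ
  have hxQ1 := left_ne_zero_of_mul hxQ
  have hcross := Finset.prod_ne_zero_iff.1 (right_ne_zero_of_mul hxQ1)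
  have hxQ2 := left_ne_zero_of_mul hxQ1
  have hdiff := Finset.prod_ne_zero_iff.1 (right_ne_zero_of_mul hxQ2)
  have hxQ3 := left_ne_zero_of_mul hxQ2
  have hC := Finset.prod_ne_zero_iff.1 (right_ne_zero_of_mul hxQ3)
  have hxQ4 := left_ne_zero_of_mul hxQ3
  have hB := Finset.prod_ne_zero_iff.1 (right_ne_zero_of_mul hxQ4)
  have hdet := left_ne_zero_of_mul hxQ4
  refine ⟨a, fun j => cB a j / (matA a).det, fun j => cC a j / (matA a).det, ?_, hx9, hx6, hdet,
    ?_, ?_, ?_, ?_, ?_⟩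
  · constructor
    · intro j
      exact div_ne_zero (hB j (Finset.mem_univ j)) hdet
    · intro j
      exact div_ne_zero (hC j (Finset.mem_univ j)) hdet
    · intro j
      rw [← sub_div]
      exact div_ne_zero (hdiff j (Finset.mem_univ j)) hdet
    · intro i j hij
      have h := Finset.prod_ne_zero_iff.1 (hcross i (Finset.mem_univ i)) j
        (Finset.mem_erase.2 ⟨hij.symm, Finset.mem_univ j⟩)
      have : cB a i / (matA a).det * (cC a j / (matA a).det) -
          cB a j / (matA a).det * (cC a i / (matA a).det) =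
          (cB a i * cC a j - cB a j * cC a i) / (matA a).det ^ 2 := by
        field_simp
      rw [this]
      exact div_ne_zero h (pow_ne_zero _ hdet)
  · exact vecMul_matA a (a 5) hdet
  · exact vecMul_matA a (a 6) hdet
  · intro h
    rw [h] at hlast
    simp at hlast
  · intro h
    rw [h] at hlast
    simp at hlast
  · intro h
    rw [h] at hlast
    simp at hlast

end

end Pool.Agent.Helper89.FI
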