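import Mathlib
import Pool.Agent.Helper89.FI.Generic
import Pool.Agent.Helper89.FI.Coeff

set_option autoImplicit false

set_option maxHeartbeats 40000
namespace Pool.Agent.Helper89.FI

/-- The Hilbert function statement for one configuration. -/
def HFeq (r : ℕ) (a : Fin r → Fin 5 → ℂ) (j : ℕ) (v : ℤ) : Prop :=
  ((Module.finrank ℂ (MvPolynomial.homogeneousSubmodule (Fin 5) ℂ j) : ℕ) : ℤ) -
            ((Module.finrank ℂ
              ↥((Submodule.restrictScalars ℂ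
                  (Ideal.span (Set.range (fun k : Fin r =>
                    (∑ i : Fin 5, MvPolynomial.C (a k i) * MvPolynomial.X i) ^ 17)))) ⊓
                MvPolynomial.homogeneousSubmodule (Fin 5) ℂ j) : ℕ) : ℤ) = v

theorem HFeq_iff (r : ℕ) (a : Fin r → Fin 5 → ℂ) (j : ℕ) (v : ℤ) : HFeq r a j v ↔
    (Module.finrank ℂ (MvPolynomial.homogeneousSubmodule (Fin 5) ℂ j) : ℤ) -
      (Module.finrank ℂ (gr (pI r 17 a) j) : ℤ) = v := Iff.rfl

theorem HFeq_of {r j : ℕ} {a : Fin r → Fin 5 → ℂ} {v : ℤ}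
    (h : HFeq r a j (if (∀ m : ℕ, m ≤ j → 0 < cc r m) then cc r j else 0))
    (hpos : ∀ m : ℕ, m ≤ j → 0 < cc r m) (hv : cc r j = v) : HFeq r a j v := by
  rw [if_pos hpos, hv] at h
  exact h

theorem HFeq_zero {a : Fin 0 → Fin 5 → ℂ} {j : ℕ} {v : ℤ} (h : HFeq 0 a j v) :
    (Module.finrank ℂ (MvPolynomial.homogeneousSubmodule (Fin 5) ℂ j) : ℤ) = v := by
  rw [HFeq_iff] at h
  have hbot : gr (pI 0 17 a) j = ⊥ := by
    unfold gr pI
    rw [Set.range_eq_empty, Ideal.span_empty]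
    simp
  rw [hbot, finrank_bot] at h
  simpa using h

theorem contradiction_of {b c : Fin 5 → ℂ} (hgood : Good b c) (a : Fin 9 → Fin 5 → ℂ)
    (hdet : (matA a).det ≠ 0) (hb : a 5 = ∑ j, b j • a (e5 j)) (hc : a 6 = ∑ j, c j • a (e5 j))
    (h6 : a 6 ≠ 0) (h7 : a 7 ≠ 0) (h8 : a 8 ≠ 0)
    (a0 : Fin 0 → Fin 5 → ℂ) (s4 : HFeq 0 a0 4 70)
    (g9_38 : HFeq 9 a 38 600) (g9_21 : HFeq 9 a 21 12020)
    (g6_38 : HFeq 6 (fun k => a k.castSucc.castSucc.castSucc) 38 37080)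
    (g6_21 : HFeq 6 (fun k => a k.castSucc.castSucc.castSucc) 21 12230) : False := by
  have hS4 := HFeq_zero s4
  rw [HFeq_iff] at g9_38 g9_21 g6_38 g6_21
  have k1 := finrank_pI_succ 8 17 a h8 21
  have k2 := finrank_pI_succ 8 17 a h8 4
  have k3 := finrank_pI_succ 7 17 (fun k => a k.castSucc) h7 21
  have k4 := finrank_pI_succ 7 17 (fun k => a k.castSucc) h7 4
  have k5 := finrank_pI_succ' 6 17 (fun k => a k.castSucc.castSucc) h6 21 (by
    have hk := kernel_exists hgood (fun k => a k.castSucc.castSucc.castSucc) hb hdet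
    have hc' : (∑ j, c j • a (Fin.castSucc j).castSucc.castSucc.castSucc) = a 6 := hc.symm
    rw [hc'] at hk
    exact hk)
  simp only [Nat.reduceAdd] at k1 k2 k3 k4 k5
  omega

/-- The conjecture in five variables for seventeenth powers of `r` forms. -/
def Conj (r : ℕ) : Prop := ∃ P : MvPolynomial (Fin r × Fin 5) ℂ, P ≠ 0 ∧
      ∀ a : Fin r → Fin 5 → ℂ,
        MvPolynomial.eval (fun p : Fin r × Fin 5 => a p.1 p.2) P ≠ 0 →
        ∀ j : ℕ, HFeq r a j (if (∀ m : ℕ, m ≤ j → 0 < cc r m) then cc r j else 0)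

theorem not_conj (H9 : Conj 9) (H6 : Conj 6) (H0 : Conj 0) : False := by
  obtain ⟨P9, hP9, H9⟩ := H9
  obtain ⟨P6, hP6, H6⟩ := H6
  obtain ⟨P0, hP0, H0⟩ := H0
  obtain ⟨a, b, c, hgood, ha9, ha6, hdet, hb, hc, h6, h7, h8⟩ := exists_config P9 hP9 P6 hP6
  obtain ⟨x, hx⟩ := exists_eval_ne P0 hP0
  let a0 : Fin 0 → Fin 5 → ℂ := fun k i => x (k, i)
  have hx' : MvPolynomial.eval (fun p : Fin 0 × Fin 5 => a0 p.1 p.2) P0 ≠ 0 := hx
  have e0 : HFeq 0 a0 4 70 := HFeq_of (H0 a0 hx' 4) cc0_pos cc0_4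
  have e9_38 := HFeq_of (H9 a ha9 38) cc9_pos cc9_38
  have e9_21 := HFeq_of (H9 a ha9 21) (fun m hm => cc9_pos m (hm.trans (by norm_num))) cc9_21
  have e6_38 := HFeq_of (H6 (fun k => a k.castSucc.castSucc.castSucc) ha6 38) cc6_pos cc6_38
  have e6_21 := HFeq_of (H6 (fun k => a k.castSucc.castSucc.castSucc) ha6 21)
    (fun m hm => cc6_pos m (hm.trans (by norm_num))) cc6_21
  exact contradiction_of hgood a hdet hb hc h6 h7 h8 a0 e0 e9_38 e9_21 e6_38 e6_21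

end Pool.Agent.Helper89.FI
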