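import Mathlib
import Pool.Agent.Helper89.FI.Span

/-!
# Independence in degree 21 of nine seventeenth powers, and dimensions of spaces of forms
-/

set_option autoImplicit false

namespace Pool.Agent.Helper89.FI

open MvPolynomial Module

section Dim

theorem homog_eq_span (σ : Type*) (d : ℕ) :
    homogeneousSubmodule σ ℂ d =
      Submodule.span ℂ (Set.range fun e : {P : σ →₀ ℕ // P.sum (fun _ => id) = d} =>
        (basisMonomials σ ℂ) e.1) := by
  have hdeg : ∀ P : σ →₀ ℕ, P.sum (fun _ => id) = P.degree := fun P => rfl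
  apply le_antisymm
  · intro f hf
    rw [mem_homogeneousSubmodule] at hf
    rw [f.as_sum]
    refine Submodule.sum_mem _ fun e he => ?_
    have h1 : (monomial e (coeff e f) : MvPolynomial σ ℂ) =
        coeff e f • (basisMonomials σ ℂ) e := by
      rw [coe_basisMonomials, smul_monomial, smul_eq_mul, mul_one]
    rw [h1]
    refine Submodule.smul_mem _ _ (Submodule.subset_span ⟨⟨e, ?_⟩, rfl⟩)
    rw [hdeg]
    by_contra h
    exact (mem_support_iff.1 he) (hf.coeff_eq_zero h)
  · rw [Submodule.span_le]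
    rintro _ ⟨⟨e, he⟩, rfl⟩
    rw [SetLike.mem_coe, mem_homogeneousSubmodule, coe_basisMonomials]
    rw [hdeg] at he
    exact isHomogeneous_monomial 1 he

theorem finrank_homog (σ : Type*) [Fintype σ] (d : ℕ) :
    finrank ℂ (homogeneousSubmodule σ ℂ d) = (Fintype.card σ).multichoose d := by
  classical
  have : Fintype {P : σ →₀ ℕ // P.sum (fun _ => id) = d} :=
    Fintype.ofEquiv _ (Sym.equivNatSum σ d)
  rw [homog_eq_span, finrank_span_eq_card, ← Fintype.card_congr (Sym.equivNatSum σ d),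
    Sym.card_sym_eq_multichoose]
  exact (basisMonomials σ ℂ).linearIndependent.comp Subtype.val Subtype.val_injective

theorem finrank_homog5 (d : ℕ) :
    finrank ℂ (homogeneousSubmodule (Fin 5) ℂ d) = (d + 4).choose 4 := by
  rw [finrank_homog, Fintype.card_fin, Nat.multichoose_eq, show 5 + d - 1 = d + 4 by omega,
    Nat.choose_symm_add]

theorem finrank_S4 : finrank ℂ (homogeneousSubmodule (Fin 5) ℂ 4) = 70 := by
  rw [finrank_homog5]; decide

theorem finrank_S21 : finrank ℂ (homogeneousSubmodule (Fin 5) ℂ 21) = 12650 := by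
  rw [finrank_homog5]; decide

theorem finrank_S38 : finrank ℂ (homogeneousSubmodule (Fin 5) ℂ 38) = 111930 := by
  rw [finrank_homog5]; decide

end Dim

section Deriv

variable {n : ℕ}

/-- The derivative in the direction `v`. -/
noncomputable def dd (v : Fin n → ℂ) : MvPolynomial (Fin n) ℂ →ₗ[ℂ] MvPolynomial (Fin n) ℂ :=
  ∑ j, v j • (pderiv j : Derivation ℂ (MvPolynomial (Fin n) ℂ) (MvPolynomial (Fin n) ℂ)).toLinearMap

theorem dd_apply (v : Fin n → ℂ) (f : MvPolynomial (Fin n) ℂ) :
    dd v f = ∑ j, C (v j) * pderiv j f := by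
  simp [dd, LinearMap.sum_apply, smul_eq_C_mul]

theorem dd_mul (v : Fin n → ℂ) (f g : MvPolynomial (Fin n) ℂ) :
    dd v (f * g) = dd v f * g + f * dd v g := by
  simp only [dd_apply, pderiv_mul, Finset.sum_mul, Finset.mul_sum, ← Finset.sum_add_distrib]
  refine Finset.sum_congr rfl fun j _ => ?_
  ring

theorem dd_lin (v w : Fin n → ℂ) : dd v (lin w) = C (∑ i, w i * v i) := by
  classical
  unfold lin
  rw [map_sum, map_sum]
  refine Finset.sum_congr rfl fun i _ => ?_
  rw [dd_apply, Finset.sum_eq_single i]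
  · rw [pderiv_C_mul, pderiv_X_self, mul_one, C_mul, mul_comm]
  · intro j _ hj
    rw [pderiv_C_mul, pderiv_X_of_ne hj.symm, mul_zero, mul_zero]
  · simp

theorem dd_pow (v : Fin n → ℂ) (f : MvPolynomial (Fin n) ℂ) (m : ℕ) :
    dd v (f ^ (m + 1)) = C ((m : ℂ) + 1) * dd v f * f ^ m := by
  induction m with
  | zero => simp
  | succ m ih =>
    rw [pow_succ, dd_mul, ih]
    push_cast
    simp only [map_add, map_natCast, map_one]
    ring

theorem dd_homog {v : Fin n → ℂ} {f : MvPolynomial (Fin n) ℂ} {e : ℕ}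
    (hf : f.IsHomogeneous (e + 1)) : (dd v f).IsHomogeneous e := by
  rw [dd_apply]
  refine IsHomogeneous.sum _ _ _ fun j _ => ?_
  have := (isHomogeneous_C (Fin n) (v j)).mul (hf.pderiv (i := j))
  simpa using this

theorem dd_homog0 {v : Fin n → ℂ} {f : MvPolynomial (Fin n) ℂ}
    (hf : f.IsHomogeneous 0) : dd v f = 0 := by
  have h : f = C (coeff 0 f) := by
    rw [← totalDegree_eq_zero_iff_eq_C]
    exact Nat.le_zero.1 hf.totalDegree_le
  rw [h, dd_apply]
  simp

theorem dd_iter_zero {v : Fin n → ℂ} (e : ℕ) {f : MvPolynomial (Fin n) ℂ}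
    (hf : f.IsHomogeneous e) : (dd v)^[e + 1] f = 0 := by
  induction e generalizing f with
  | zero => simpa using dd_homog0 hf
  | succ e ih => rw [Function.iterate_succ_apply]; exact ih (dd_homog hf)

/-- One step, keeping the degree of the cofactor. -/
theorem dd_step (v w : Fin n → ℂ) (h : MvPolynomial (Fin n) ℂ) (m : ℕ) :
    dd v (h * lin w ^ (m + 1)) =
      (C (((m : ℂ) + 1) * ∑ i, w i * v i) * h + lin w * dd v h) * lin w ^ m := by
  rw [dd_mul, dd_pow, dd_lin, C_mul]
  ring

theorem dd_iter_homog (v w : Fin n → ℂ) (N : ℕ) {h : MvPolynomial (Fin n) ℂ} {e m : ℕ}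
    (hh : h.IsHomogeneous e) :
    ∃ h' : MvPolynomial (Fin n) ℂ, h'.IsHomogeneous e ∧
      (dd v)^[N] (h * lin w ^ (m + N)) = h' * lin w ^ m := by
  induction N generalizing h with
  | zero => exact ⟨h, hh, rfl⟩
  | succ N ih =>
    have h1 : (C ((((m + N : ℕ) : ℂ) + 1) * ∑ i, w i * v i) * h + lin w * dd v h).IsHomogeneous
        e := by
      refine IsHomogeneous.add ?_ ?_
      · simpa using (isHomogeneous_C (Fin n) ((((m + N : ℕ) : ℂ) + 1) * ∑ i, w i * v i)).mul hh
      · cases e with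
        | zero => rw [dd_homog0 hh, mul_zero]; exact isHomogeneous_zero _ _ _
        | succ e =>
          have := (lin_mem w).mul (dd_homog (v := v) hh)
          rwa [add_comm 1 e] at this
    obtain ⟨h', hh', he⟩ := ih h1
    refine ⟨h', hh', ?_⟩
    rw [Function.iterate_succ_apply, show m + (N + 1) = (m + N) + 1 by omega, dd_step]
    exact he

theorem dd_iter_nondvd (v w : Fin n → ℂ) (hvw : ∑ i, w i * v i ≠ 0) (N : ℕ)
    {h : MvPolynomial (Fin n) ℂ} {m : ℕ} (hh : ¬ lin w ∣ h) :
    ∃ h' : MvPolynomial (Fin n) ℂ, ¬ lin w ∣ h' ∧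
      (dd v)^[N] (h * lin w ^ (m + N)) = h' * lin w ^ m := by
  induction N generalizing h with
  | zero => exact ⟨h, hh, rfl⟩
  | succ N ih =>
    have h1 : ¬ lin w ∣ (C ((((m + N : ℕ) : ℂ) + 1) * ∑ i, w i * v i) * h + lin w * dd v h) := by
      intro hd
      apply hh
      have h2 : lin w ∣ C ((((m + N : ℕ) : ℂ) + 1) * ∑ i, w i * v i) * h :=
        (dvd_add_left (dvd_mul_right _ _)).1 hd
      have hne : (((m + N : ℕ) : ℂ) + 1) * ∑ i, w i * v i ≠ 0 :=
        mul_ne_zero (by exact_mod_cast Nat.succ_ne_zero (m + N)) hvw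
      have h3 := Dvd.dvd.mul_left h2 (C ((((m + N : ℕ) : ℂ) + 1) * ∑ i, w i * v i)⁻¹)
      rwa [← mul_assoc, ← C_mul, inv_mul_cancel₀ hne, C_1, one_mul] at h3
    obtain ⟨h', hh', he⟩ := ih h1
    refine ⟨h', hh', ?_⟩
    rw [Function.iterate_succ_apply, show m + (N + 1) = (m + N) + 1 by omega, dd_step]
    exact he

theorem iter_sum {ι : Type*} (s : Finset ι) (L : MvPolynomial (Fin n) ℂ →ₗ[ℂ] MvPolynomial (Fin n) ℂ)
    (N : ℕ) (f : ι → MvPolynomial (Fin n) ℂ) : L^[N] (∑ i ∈ s, f i) = ∑ i ∈ s, L^[N] (f i) := by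
  induction N generalizing f with
  | zero => rfl
  | succ N ih =>
    simp only [Function.iterate_succ_apply]
    rw [map_sum, ih]

theorem iter_zero (L : MvPolynomial (Fin n) ℂ →ₗ[ℂ] MvPolynomial (Fin n) ℂ)
    (N : ℕ) : L^[N] 0 = 0 := by
  induction N with
  | zero => rfl
  | succ N ih => rw [Function.iterate_succ_apply, map_zero, ih]

end Deriv

section Indep

variable {n r : ℕ}

/-- Independence of seventeenth powers with quartic coefficients. -/
theorem indep_17 (a : Fin r → Fin n → ℂ)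
    (H : ∀ k : Fin r, ∃ v w : Fin n → ℂ, (∑ i, a k i * v i ≠ 0) ∧ (∑ i, a k i * w i ≠ 0) ∧
      ∀ l : Fin r, l ≠ k → (∑ i, a l i * v i = 0) ∨ (∑ i, a l i * w i = 0))
    (g : Fin r → MvPolynomial (Fin n) ℂ) (hg : ∀ k, (g k).IsHomogeneous 4)
    (hsum : ∑ k, g k * lin (a k) ^ 17 = 0) (k : Fin r) : g k = 0 := by
  by_contra hk
  obtain ⟨v, w, hv, hw, hl⟩ := H k
  have hne : lin (a k) ≠ 0 := by
    apply lin_ne_zero
    rintro h0
    apply hv
    simp [h0]
  have hunit : ¬ IsUnit (lin (a k)) := by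
    intro hu
    have h1 := lin_mem (a k)
    obtain ⟨c, hc⟩ := hu.exists_right_inv
    have h2 := congrArg (eval (0 : Fin n → ℂ)) hc
    rw [map_mul] at h2
    have h3 : eval (0 : Fin n → ℂ) (lin (a k)) = 0 := by
      simp [lin]
    rw [h3, zero_mul, map_one] at h2
    exact zero_ne_one h2
  have hfin : FiniteMultiplicity (lin (a k)) (g k) := by
    exact FiniteMultiplicity.of_not_isUnit hunit hk
  obtain ⟨h, hgh, hdvd⟩ := hfin.exists_eq_pow_mul_and_not_dvd
  set s := multiplicity (lin (a k)) (g k) with hs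
  -- the others are killed
  have hkill : ∀ l : Fin r, l ≠ k → (dd v)^[5] ((dd w)^[5] (g l * lin (a l) ^ 17)) = 0 := by
    intro l hlk
    rcases hl l hlk with h0 | h0
    · obtain ⟨h', hh', he⟩ := dd_iter_homog w (a l) 5 (m := 12) (hg l)
      rw [show (17 : ℕ) = 12 + 5 from rfl, he]
      have key : ∀ (N : ℕ) (f : MvPolynomial (Fin n) ℂ),
          (dd v)^[N] (f * lin (a l) ^ 12) = (dd v)^[N] f * lin (a l) ^ 12 := by
        intro N
        induction N with
        | zero => intro f; rfl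
        | succ N ih =>
          intro f
          rw [Function.iterate_succ_apply, Function.iterate_succ_apply, ← ih]
          congr 1
          rw [dd_mul, dd_pow, dd_lin, h0]
          simp
      rw [key, dd_iter_zero 4 hh', zero_mul]
    · have key : ∀ (N : ℕ) (f : MvPolynomial (Fin n) ℂ),
          (dd w)^[N] (f * lin (a l) ^ 17) = (dd w)^[N] f * lin (a l) ^ 17 := by
        intro N
        induction N with
        | zero => intro f; rfl
        | succ N ih =>
          intro f
          rw [Function.iterate_succ_apply, Function.iterate_succ_apply, ← ih]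
          congr 1
          rw [dd_mul, dd_pow, dd_lin, h0]
          simp
      rw [key, dd_iter_zero 4 (hg l), zero_mul, iter_zero]
  have h1 : (dd v)^[5] ((dd w)^[5] (∑ l, g l * lin (a l) ^ 17)) =
      (dd v)^[5] ((dd w)^[5] (g k * lin (a k) ^ 17)) := by
    rw [iter_sum, iter_sum, Finset.sum_eq_single k]
    · intro l _ hlk
      exact hkill l hlk
    · simp
  rw [hsum, iter_zero, iter_zero] at h1
  obtain ⟨h', hh', he⟩ := dd_iter_nondvd w (a k) hw 5 (m := s + 12) hdvd
  obtain ⟨h'', hh'', he'⟩ := dd_iter_nondvd v (a k) hv 5 (m := s + 7) hh'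
  have h2 : g k * lin (a k) ^ 17 = h * lin (a k) ^ (s + 12 + 5) := by
    rw [hgh]
    ring
  rw [h2, he, show s + 12 = s + 7 + 5 by ring, he'] at h1
  have h3 : h'' = 0 := by
    rcases mul_eq_zero.1 h1.symm with h4 | h4
    · exact h4
    · exact absurd h4 (pow_ne_zero _ hne)
  rw [h3] at hh''
  exact hh'' (dvd_zero _)

end Indep

end Pool.Agent.Helper89.FI
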