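import Mathlib
import Pool.Agent.Helper89.FI.Full1
import Pool.Agent.Helper89.FI.Generic

/-!
# Semicontinuity, and the value of the Hilbert function in degree 38
-/

set_option autoImplicit false

namespace Pool.Agent.Helper89.FI

open MvPolynomial Module

section Semi

variable {n r : ℕ}

/-- The map `(g_k) ↦ ∑ g_k ℓ_k^d`. -/
noncomputable def Phi (d : ℕ) (a : Fin r → Fin n → ℂ) (j : ℕ) :
    (Fin r → homogeneousSubmodule (Fin n) ℂ j) →ₗ[ℂ] MvPolynomial (Fin n) ℂ where
  toFun g := ∑ k, (g k : MvPolynomial (Fin n) ℂ) * lin (a k) ^ d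
  map_add' g h := by
    simp [add_mul, Finset.sum_add_distrib]
  map_smul' c g := by
    simp [Finset.smul_sum]

theorem Phi_apply (d : ℕ) (a : Fin r → Fin n → ℂ) (j : ℕ)
    (g : Fin r → homogeneousSubmodule (Fin n) ℂ j) :
    Phi d a j g = ∑ k, (g k : MvPolynomial (Fin n) ℂ) * lin (a k) ^ d := rfl

theorem range_Phi_le (d : ℕ) (a : Fin r → Fin n → ℂ) (j : ℕ) :
    LinearMap.range (Phi d a j) ≤ gr (pI r d a) (d + j) := by
  rintro _ ⟨g, rfl⟩
  rw [mem_gr, Phi_apply]
  refine ⟨Ideal.sum_mem _ fun k _ => Ideal.mul_mem_left _ _ (mem_pI r d a k),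
    Submodule.sum_mem _ fun k _ => ?_⟩
  have := IsHomogeneous.mul (g k).2 (lin_pow_mem (a k) d)
  rwa [add_comm] at this

theorem gr_le_range_Phi (d : ℕ) (a : Fin r → Fin n → ℂ) (j : ℕ) :
    gr (pI r d a) (d + j) ≤ LinearMap.range (Phi d a j) := by
  induction r with
  | zero =>
    intro x hx
    have h1 := (mem_gr.1 hx).1
    unfold pI at h1
    rw [Set.range_eq_empty, Ideal.span_empty, Ideal.mem_bot] at h1
    rw [h1]
    exact Submodule.zero_mem _
  | succ r ih =>
    rw [pI_succ]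
    refine (gr_sup_le (pI_homog _ _ _) (lin_pow_mem _ _) j).trans ?_
    refine sup_le ((ih _).trans ?_) ?_
    · rintro _ ⟨g, rfl⟩
      refine ⟨Fin.snoc g 0, ?_⟩
      rw [Phi_apply, Phi_apply, Fin.sum_univ_castSucc]
      simp
    · rintro _ ⟨g, hg, rfl⟩
      refine ⟨Fin.snoc (fun _ => 0) ⟨g, hg⟩, ?_⟩
      rw [Phi_apply, Fin.sum_univ_castSucc, mulMap_apply]
      simp [mul_comm]

theorem gr_eq_range (d : ℕ) (a : Fin r → Fin n → ℂ) (j : ℕ) :
    gr (pI r d a) (d + j) = LinearMap.range (Phi d a j) :=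
  le_antisymm (gr_le_range_Phi d a j) (range_Phi_le d a j)

/-- Families of polynomials depending polynomially on the parameters. -/
def IsPoly (F : (Fin r → Fin n → ℂ) → MvPolynomial (Fin n) ℂ) : Prop :=
  ∀ l : MvPolynomial (Fin n) ℂ →ₗ[ℂ] ℂ, ∃ P : MvPolynomial (Fin r × Fin n) ℂ,
    ∀ a : Fin r → Fin n → ℂ, l (F a) = eval (fun p : Fin r × Fin n => a p.1 p.2) P

theorem IsPoly.const (f : MvPolynomial (Fin n) ℂ) :
    IsPoly (fun _ : Fin r → Fin n → ℂ => f) := fun l => ⟨C (l f), fun a => by simp⟩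

theorem IsPoly.sum {ι : Type*} (s : Finset ι)
    {F : ι → (Fin r → Fin n → ℂ) → MvPolynomial (Fin n) ℂ}
    (h : ∀ i ∈ s, IsPoly (F i)) : IsPoly (fun a => ∑ i ∈ s, F i a) := by
  intro l
  choose! P hP using fun i hi => h i hi l
  refine ⟨∑ i ∈ s, P i, fun a => ?_⟩
  rw [map_sum, map_sum]
  exact Finset.sum_congr rfl fun i hi => hP i hi a

theorem IsPoly.mul_lin {F : (Fin r → Fin n → ℂ) → MvPolynomial (Fin n) ℂ} (hF : IsPoly F)
    (k : Fin r) : IsPoly (fun a => F a * lin (a k)) := by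
  intro l
  choose P hP using fun i : Fin n => hF (l ∘ₗ LinearMap.mulRight ℂ (X i))
  refine ⟨∑ i, X (k, i) * P i, fun a => ?_⟩
  have h1 : F a * lin (a k) = ∑ i, a k i • (F a * X i) := by
    unfold lin
    rw [Finset.mul_sum]
    refine Finset.sum_congr rfl fun i _ => ?_
    rw [smul_eq_C_mul]
    ring
  show l (F a * lin (a k)) = _
  rw [h1, map_sum, map_sum]
  refine Finset.sum_congr rfl fun i _ => ?_
  rw [map_smul, RingHom.map_mul, eval_X, ← hP i a, smul_eq_mul]
  rfl

theorem IsPoly.mul_lin_pow {F : (Fin r → Fin n → ℂ) → MvPolynomial (Fin n) ℂ} (hF : IsPoly F)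
    (k : Fin r) (d : ℕ) : IsPoly (fun a => F a * lin (a k) ^ d) := by
  induction d with
  | zero => simpa using hF
  | succ d ih =>
    have := ih.mul_lin k
    have e : (fun a : Fin r → Fin n → ℂ => F a * lin (a k) ^ (d + 1)) =
        fun a => F a * lin (a k) ^ d * lin (a k) := by
      funext a
      ring
    rw [e]
    exact this

theorem isPoly_Phi (d j : ℕ) (g : Fin r → homogeneousSubmodule (Fin n) ℂ j) :
    IsPoly (fun a => Phi d a j g) :=
  IsPoly.sum (r := r) (n := n) Finset.univ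
    (F := fun k a => (g k : MvPolynomial (Fin n) ℂ) * lin (a k) ^ d)
    fun k _ => (IsPoly.const (r := r) (g k : MvPolynomial (Fin n) ℂ)).mul_lin_pow k d

/-- Lower semicontinuity of the rank. -/
theorem semi (d j R : ℕ) (a₀ : Fin r → Fin n → ℂ)
    (h : R ≤ finrank ℂ (gr (pI r d a₀) (d + j))) :
    ∃ Q : MvPolynomial (Fin r × Fin n) ℂ, Q ≠ 0 ∧ ∀ a : Fin r → Fin n → ℂ,
      eval (fun p : Fin r × Fin n => a p.1 p.2) Q ≠ 0 →
        R ≤ finrank ℂ (gr (pI r d a) (d + j)) := by
  classical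
  obtain ⟨w, hw⟩ := exists_linearIndependent_of_le_finrank h
  have hw' : LinearIndependent ℂ (fun i => (w i : MvPolynomial (Fin n) ℂ)) :=
    hw.map' (Submodule.subtype _) (Submodule.ker_subtype _)
  have hmem : ∀ i, ∃ g, Phi d a₀ j g = (w i : MvPolynomial (Fin n) ℂ) := fun i => by
    have := gr_le_range_Phi d a₀ j (w i).2
    exact this
  choose g hg using hmem
  -- dual functionals
  have hdual : ∃ l : Fin R → (MvPolynomial (Fin n) ℂ →ₗ[ℂ] ℂ),
      ∀ i k, l i (w k : MvPolynomial (Fin n) ℂ) = if k = i then 1 else 0 := by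
    obtain ⟨L, hL⟩ := LinearMap.exists_extend
      (p := Submodule.span ℂ (Set.range fun i => (w i : MvPolynomial (Fin n) ℂ)))
      ((Finsupp.lcoeFun : (Fin R →₀ ℂ) →ₗ[ℂ] (Fin R → ℂ)) ∘ₗ hw'.repr)
    refine ⟨fun i => LinearMap.proj i ∘ₗ L, fun i k => ?_⟩
    have hk : (w k : MvPolynomial (Fin n) ℂ) ∈
        Submodule.span ℂ (Set.range fun i => (w i : MvPolynomial (Fin n) ℂ)) :=
      Submodule.subset_span ⟨k, rfl⟩
    have h1 := LinearMap.congr_fun hL ⟨_, hk⟩
    have h2 : hw'.repr ⟨_, hk⟩ = Finsupp.single k 1 := hw'.repr_eq_single k _ rfl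
    simp only [LinearMap.comp_apply, Submodule.subtype_apply] at h1
    rw [LinearMap.comp_apply, h1]
    have h3 : (hw'.repr : _ →ₗ[ℂ] (Fin R →₀ ℂ)) ⟨_, hk⟩ = Finsupp.single k 1 := h2
    rw [h3]
    simp [Finsupp.lcoeFun, Finsupp.single_apply]
  obtain ⟨l, hl⟩ := hdual
  have hPoly : ∀ i k : Fin R, ∃ P : MvPolynomial (Fin r × Fin n) ℂ,
      ∀ a : Fin r → Fin n → ℂ, l i (Phi d a j (g k)) =
        eval (fun p : Fin r × Fin n => a p.1 p.2) P :=
    fun i k => isPoly_Phi (r := r) d j (g k) (l i)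
  choose P hP using hPoly
  refine ⟨Matrix.det (Matrix.of fun i k => P i k), ?_, ?_⟩
  · intro h0
    have h1 : eval (fun p : Fin r × Fin n => a₀ p.1 p.2) (Matrix.det (Matrix.of fun i k => P i k))
        = 1 := by
      rw [RingHom.map_det]
      have : (eval fun p : Fin r × Fin n => a₀ p.1 p.2).mapMatrix (Matrix.of fun i k => P i k) =
          1 := by
        ext i k
        rw [RingHom.mapMatrix_apply, Matrix.map_apply, Matrix.of_apply, ← hP i k a₀, hg, hl,
          Matrix.one_apply]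
        simp [eq_comm]
      rw [this, Matrix.det_one]
    rw [h0, map_zero] at h1
    exact zero_ne_one h1
  · intro a ha
    rw [RingHom.map_det] at ha
    have hM : (eval fun p : Fin r × Fin n => a p.1 p.2).mapMatrix (Matrix.of fun i k => P i k) =
        Matrix.of fun i k => l i (Phi d a j (g k)) := by
      ext i k
      rw [RingHom.mapMatrix_apply, Matrix.map_apply, Matrix.of_apply, Matrix.of_apply, ← hP i k a]
    rw [hM] at ha
    have hli : LinearIndependent ℂ (fun k : Fin R => Phi d a j (g k)) := by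
      rw [Fintype.linearIndependent_iff]
      intro c hc
      have h1 : (Matrix.of fun i k => l i (Phi d a j (g k))).mulVec c = 0 := by
        funext i
        have h2 := congrArg (l i) hc
        rw [map_sum, map_zero] at h2
        simp only [map_smul, smul_eq_mul] at h2
        simp only [Matrix.mulVec, dotProduct, Matrix.of_apply, Pi.zero_apply]
        rw [← h2]
        exact Finset.sum_congr rfl fun k _ => mul_comm _ _
      have h3 := Matrix.eq_zero_of_mulVec_eq_zero ha h1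
      intro i
      rw [h3]
      rfl
    have hle : Submodule.span ℂ (Set.range fun k : Fin R => Phi d a j (g k)) ≤
        gr (pI r d a) (d + j) := by
      rw [Submodule.span_le]
      rintro _ ⟨k, rfl⟩
      exact range_Phi_le d a j ⟨_, rfl⟩
    have h4 := Submodule.finrank_mono hle
    rw [finrank_span_eq_card hli, Fintype.card_fin] at h4
    exact h4

end Semi

section Special

/-- Nine points on the moment curve. -/
def aM : Fin 9 → Fin 5 → ℂ := fun k i => ((k : ℕ) : ℂ) ^ (i : ℕ)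

theorem sep (G : Finset (Fin 9)) (hG : G.card ≤ 4) :
    ∃ v : Fin 5 → ℂ, (∀ l ∈ G, ∑ i, aM l i * v i = 0) ∧ (∀ l ∉ G, ∑ i, aM l i * v i ≠ 0) := by
  classical
  set p : Polynomial ℂ := ∏ l ∈ G, (Polynomial.X - Polynomial.C ((l : ℕ) : ℂ)) with hp
  have hdeg : p.natDegree < 5 := by
    rw [hp, Polynomial.natDegree_prod_of_monic _ _ fun l _ => Polynomial.monic_X_sub_C _]
    simp only [Polynomial.natDegree_X_sub_C, Finset.sum_const, smul_eq_mul, mul_one]
    omega
  have hev : ∀ l : Fin 9, ∑ i : Fin 5, aM l i * p.coeff i = p.eval ((l : ℕ) : ℂ) := by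
    intro l
    rw [Polynomial.eval_eq_sum_range' hdeg, ← Fin.sum_univ_eq_sum_range]
    exact Finset.sum_congr rfl fun i _ => by rw [aM, mul_comm]
  refine ⟨fun i => p.coeff i, fun l hl => ?_, fun l hl => ?_⟩
  · rw [hev, hp, Polynomial.eval_prod]
    exact Finset.prod_eq_zero hl (by simp)
  · rw [hev, hp, Polynomial.eval_prod]
    refine Finset.prod_ne_zero_iff.2 fun m hm => ?_
    simp only [Polynomial.eval_sub, Polynomial.eval_X, Polynomial.eval_C]
    rw [sub_ne_zero]
    intro h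
    have h' : (l : ℕ) = (m : ℕ) := by exact_mod_cast h
    exact hl (by rwa [Fin.ext h'])

theorem groups (k : Fin 9) : ∃ G G' : Finset (Fin 9), G.card ≤ 4 ∧ G'.card ≤ 4 ∧ k ∉ G ∧ k ∉ G' ∧
    ∀ l : Fin 9, l ≠ k → l ∈ G ∨ l ∈ G' := by
  refine ⟨(Finset.univ.erase k).filter (fun l : Fin 9 => l.val < 4 ∨ (l.val = 4 ∧ k.val < 4)),
    (Finset.univ.erase k).filter (fun l : Fin 9 => ¬ (l.val < 4 ∨ (l.val = 4 ∧ k.val < 4))),
    ?_, ?_, ?_, ?_, ?_⟩
  · revert k; decide
  · revert k; decide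
  · simp
  · simp
  · intro l hl
    by_cases h : l.val < 4 ∨ (l.val = 4 ∧ k.val < 4)
    · left
      simp [hl, h]
    · right
      simp only [Finset.mem_filter, Finset.mem_erase, Finset.mem_univ, and_true]
      exact ⟨hl, h⟩

theorem indep_aM (g : Fin 9 → MvPolynomial (Fin 5) ℂ) (hg : ∀ k, (g k).IsHomogeneous 4)
    (hsum : ∑ k, g k * lin (aM k) ^ 17 = 0) (k : Fin 9) : g k = 0 := by
  refine indep_17 aM (fun k => ?_) g hg hsum k
  obtain ⟨G, G', hG, hG', hk, hk', hl⟩ := groups k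
  obtain ⟨v, hv1, hv2⟩ := sep G hG
  obtain ⟨w, hw1, hw2⟩ := sep G' hG'
  exact ⟨v, w, hv2 k hk, hw2 k hk', fun l hlk => (hl l hlk).imp (hv1 l) (hw1 l)⟩

theorem finrank_aM : 630 ≤ finrank ℂ (gr (pI 9 17 aM) (17 + 4)) := by
  rw [gr_eq_range]
  have hinj : Function.Injective (Phi 17 aM 4) := by
    rw [← LinearMap.ker_eq_bot, LinearMap.ker_eq_bot']
    intro g hg
    funext k
    apply Subtype.ext
    exact indep_aM (fun k => (g k : MvPolynomial (Fin 5) ℂ)) (fun k => (g k).2) hg k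
  rw [LinearMap.finrank_range_of_inj hinj, Module.finrank_pi_fintype]
  simp only [finrank_S4, Finset.sum_const, Finset.card_univ, Fintype.card_fin]
  norm_num

end Special

section Bound

theorem pI_zero_finrank (j : ℕ) (a : Fin 0 → Fin 5 → ℂ) :
    finrank ℂ (gr (pI 0 17 a) j) = 0 := by
  have hbot : gr (pI 0 17 a) j = ⊥ := by
    unfold gr pI
    rw [Set.range_eq_empty, Ideal.span_empty]
    simp
  rw [hbot, finrank_bot]

theorem bound_config {b c : Fin 5 → ℂ} (hgood : Good b c) (a : Fin 9 → Fin 5 → ℂ)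
    (hdet : (matA a).det ≠ 0) (hb : a 5 = ∑ j, b j • a (e5 j)) (hc : a 6 = ∑ j, c j • a (e5 j))
    (hne : ∀ k, a k ≠ 0) (h630 : 630 ≤ finrank ℂ (gr (pI 9 17 a) 21)) :
    finrank ℂ (gr (pI 9 17 a) 38) ≤ 111329 := by
  have hS4 := finrank_S4
  have hS21 := finrank_S21
  have a8 := finrank_pI_succ 8 17 a (hne _) 21
  have b8 := finrank_pI_succ 8 17 a (hne _) 4
  have a7 := finrank_pI_succ 7 17 (fun k => a k.castSucc) (hne _) 21
  have b7 := finrank_pI_succ 7 17 (fun k => a k.castSucc) (hne _) 4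
  have a6 := finrank_pI_succ' 6 17 (fun k => a k.castSucc.castSucc) (hne _) 21 (by
    have hk := kernel_exists hgood (fun k => a k.castSucc.castSucc.castSucc) hb hdet
    have hc' : (∑ j, c j • a (Fin.castSucc j).castSucc.castSucc.castSucc) = a 6 := hc.symm
    rw [hc'] at hk
    exact hk)
  have b6 := finrank_pI_succ 6 17 (fun k => a k.castSucc.castSucc) (hne _) 4
  have a5 := finrank_pI_succ 5 17 (fun k => a k.castSucc.castSucc.castSucc) (hne _) 21
  have b5 := finrank_pI_succ 5 17 (fun k => a k.castSucc.castSucc.castSucc) (hne _) 4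
  have a4 := finrank_pI_succ 4 17 (fun k => a k.castSucc.castSucc.castSucc.castSucc) (hne _) 21
  have b4 := finrank_pI_succ 4 17 (fun k => a k.castSucc.castSucc.castSucc.castSucc) (hne _) 4
  have a3 := finrank_pI_succ 3 17 (fun k => a k.castSucc.castSucc.castSucc.castSucc.castSucc)
    (hne _) 21
  have b3 := finrank_pI_succ 3 17 (fun k => a k.castSucc.castSucc.castSucc.castSucc.castSucc)
    (hne _) 4
  have a2 := finrank_pI_succ 2 17
    (fun k => a k.castSucc.castSucc.castSucc.castSucc.castSucc.castSucc) (hne _) 21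
  have b2 := finrank_pI_succ 2 17
    (fun k => a k.castSucc.castSucc.castSucc.castSucc.castSucc.castSucc) (hne _) 4
  have a1 := finrank_pI_succ 1 17
    (fun k => a k.castSucc.castSucc.castSucc.castSucc.castSucc.castSucc.castSucc) (hne _) 21
  have b1 := finrank_pI_succ 1 17
    (fun k => a k.castSucc.castSucc.castSucc.castSucc.castSucc.castSucc.castSucc) (hne _) 4
  have a0 := finrank_pI_succ 0 17
    (fun k => a k.castSucc.castSucc.castSucc.castSucc.castSucc.castSucc.castSucc.castSucc)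
    (hne _) 21
  have z0 := pI_zero_finrank (17 + 21) (fun k =>
    a k.castSucc.castSucc.castSucc.castSucc.castSucc.castSucc.castSucc.castSucc.castSucc)
  simp only [Nat.reduceAdd] at a8 b8 a7 b7 a6 b6 a5 b5 a4 b4 a3 b3 a2 b2 a1 b1 a0 z0
  omega

theorem bound_all (a : Fin 9 → Fin 5 → ℂ) : finrank ℂ (gr (pI 9 17 a) 38) ≤ 111329 := by
  by_contra hcon
  have h1 : 111330 ≤ finrank ℂ (gr (pI 9 17 a) (17 + 21)) := by
    have : (17 + 21 : ℕ) = 38 := rfl
    rw [this]
    omega
  obtain ⟨Q, hQ, hQ'⟩ := semi 17 21 111330 a h1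
  obtain ⟨Q2, hQ2, hQ2'⟩ := semi 17 4 630 aM finrank_aM
  have hX : (∏ k : Fin 9, (X (k, (0 : Fin 5)) : MvPolynomial (Fin 9 × Fin 5) ℂ)) ≠ 0 :=
    Finset.prod_ne_zero_iff.2 fun k _ => X_ne_zero _
  obtain ⟨a', b, c, hgood, ha9, -, hdet, hb, hc, -⟩ :=
    exists_config (Q * Q2 * ∏ k : Fin 9, X (k, (0 : Fin 5))) (mul_ne_zero (mul_ne_zero hQ hQ2) hX)
      1 one_ne_zero
  rw [map_mul, map_mul] at ha9
  have e1 := left_ne_zero_of_mul (left_ne_zero_of_mul ha9)
  have e2 := right_ne_zero_of_mul (left_ne_zero_of_mul ha9)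
  have e3 := right_ne_zero_of_mul ha9
  rw [map_prod] at e3
  have hne : ∀ k, a' k ≠ 0 := by
    intro k h0
    have := Finset.prod_ne_zero_iff.1 e3 k (Finset.mem_univ k)
    rw [eval_X] at this
    apply this
    simp [h0]
  have h2 := hQ' a' e1
  have h3 := hQ2' a' e2
  have h4 := bound_config hgood a' hdet hb hc hne h3
  have h5 : (17 + 21 : ℕ) = 38 := rfl
  rw [h5] at h2
  omega

end Bound

end Pool.Agent.Helper89.FI
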